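import Mathlib
import Pool.Agent.H16.LA.R39.Q237.LS.Glo

/-!
# The local potential at all places, with a bounded error
-/

set_option autoImplicit false

namespace Pool.Agent.Q237.LT

open Pool.Agent.Y733.LS Pool.Agent.Q237.LS

section Corr

theorem corr_lip {Λ c c' : ℝ} (hΛ : 0 < Λ) (h0 : 0 ≤ c) (h : c ≤ c') :
    corr Λ c' ≤ corr Λ c + (c' - c) := by
  unfold corr
  have e : c' - c' ^ 2 / (2 * Λ) - (c - c ^ 2 / (2 * Λ)) =
      (c' - c) - (c' - c) * (c + c') / (2 * Λ) := by
    field_simp
    ring
  have : 0 ≤ (c' - c) * (c + c') / (2 * Λ) :=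
    div_nonneg (mul_nonneg (by linarith) (by linarith)) (by linarith)
  linarith

theorem corr_le_self {Λ c : ℝ} (hΛ : 0 < Λ) : corr Λ c ≤ c := by
  unfold corr
  have : 0 ≤ c ^ 2 / (2 * Λ) := by positivity
  linarith

theorem corr_dbl' {Λ c c' δ : ℝ} (hΛ : 0 < Λ) (h0 : 0 ≤ c) (h1 : c ≤ Λ) (h0' : 0 ≤ c')
    (hδ : 0 ≤ δ) (h2 : c' ≤ 2 * c + δ) (h3 : c' ≤ 2 * Λ - 2 * c + δ) :
    corr Λ c' ≤ 2 * c - 2 * c ^ 2 / Λ + δ := by
  set m := min c' (min (2 * c) (2 * Λ - 2 * c)) with hm
  have hm0 : 0 ≤ m := le_min h0' (le_min (by linarith) (by linarith))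
  have hm1 : m ≤ c' := min_le_left _ _
  have hm2 : m ≤ 2 * c := (min_le_right _ _).trans (min_le_left _ _)
  have hm3 : m ≤ 2 * Λ - 2 * c := (min_le_right _ _).trans (min_le_right _ _)
  have hm4 : c' - m ≤ δ := by
    rcases min_choice c' (min (2 * c) (2 * Λ - 2 * c)) with h | h
    · rw [hm, h]; linarith
    · rw [hm, h]
      rcases min_choice (2 * c) (2 * Λ - 2 * c) with h' | h'
      · rw [h']; linarith
      · rw [h']; linarith
  have h5 := corr_lip hΛ hm0 hm1
  have h6 := corr_dbl hΛ hm2 hm3
  linarith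

theorem ps_le' {Λ y z : ℝ} (hΛ : 0 < Λ) (hz : 0 < z) (h : z ≤ y) :
    ps Λ y ≤ max 0 (-Real.log z) := by
  rcases le_or_gt z 1 with h1 | h1
  · exact (ps_le_of_lt hΛ hz h1 h).trans (le_max_right _ _)
  · rw [ps_big hΛ (h1.le.trans h)]
    exact le_max_left _ _

theorem ps_ge {Λ y z : ℝ} (hy : 0 ≤ y) (h : y ≤ z) :
    min Λ (-Real.log z) ≤ ps Λ y := by
  unfold ps
  split_ifs with h1
  · exact min_le_left _ _
  · push Not at h1
    have hy0 : 0 < y := (Real.exp_pos _).trans h1
    refine (min_le_right _ _).trans ((neg_le_neg (Real.log_le_log hy0 h)).trans (le_max_right _ _))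

end Corr

/-- the constants have size at most `M` -/
structure Cst {K : Type} [Field K] (w : AbsoluteValue K ℝ) (M : ℝ) : Prop where
  hM : 2 ≤ M
  h2 : 1 ≤ M * w 2
  h3 : 1 ≤ M * w 3
  hn : ∀ n : ℕ, n ≤ 1000 → w (n : K) ≤ M

section Tri

variable {K : Type} [Field K] {w : AbsoluteValue K ℝ} {M : ℝ}

theorem Cst.pos (h : Cst w M) : 0 < M := by linarith [h.hM]

theorem Cst.one_le (h : Cst w M) : 1 ≤ M := by linarith [h.hM]

theorem Cst.add (h : Cst w M) {x y : K} {s : ℝ} (hx : w x ≤ s) (hy : w y ≤ s) :
    w (x + y) ≤ M * s := by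
  have h1 := w.add_le x y
  have h2 := w.nonneg x
  have h3 := h.hM
  nlinarith

theorem Cst.sub (h : Cst w M) {x y : K} {s : ℝ} (hx : w x ≤ s) (hy : w y ≤ s) :
    w (x - y) ≤ M * s := by
  rw [sub_eq_add_neg]
  exact h.add hx (by rwa [map_neg_eq_map])

theorem Cst.dom (h : Cst w M) {x y : K} (hxy : M * w y ≤ w x) : w x ≤ M * w (x + y) := by
  have h1 := w.add_le (x + y) (-y)
  rw [add_neg_cancel_right, map_neg_eq_map] at h1
  have h2 := w.nonneg (x + y)
  have h3 := w.nonneg y
  have h4 := h.hM
  have h5 : 2 * w y ≤ w x := le_trans (mul_le_mul_of_nonneg_right h4 h3) hxy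
  nlinarith

theorem Cst.ofNat (h : Cst w M) (n : ℕ) [n.AtLeastTwo] (hn : n ≤ 1000) :
    w (OfNat.ofNat n : K) ≤ M := by
  have := h.hn n hn
  exact this

theorem Cst.mul (h : Cst w M) (n : ℕ) [n.AtLeastTwo] (hn : n ≤ 1000) (z : K) :
    w (OfNat.ofNat n * z) ≤ M * w z := by
  rw [map_mul]
  exact mul_le_mul_of_nonneg_right (h.ofNat n hn) (w.nonneg _)

theorem Cst.two_pos (h : Cst w M) : 0 < w 2 := by
  have := h.h2
  have := h.pos
  by_contra hcon
  push Not at hcon
  nlinarith

theorem Cst.three_pos (h : Cst w M) : 0 < w 3 := by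
  have := h.h3
  have := h.pos
  by_contra hcon
  push Not at hcon
  nlinarith

/-- lower bounds of the constants `2 ^ i * 3 ^ j` -/
theorem Cst.low (h : Cst w M) (i j : ℕ) : 1 ≤ M ^ (i + j) * w (2 ^ i * 3 ^ j) := by
  rw [map_mul, map_pow, map_pow]
  have h1 : M ^ (i + j) * (w 2 ^ i * w 3 ^ j) = (M * w 2) ^ i * (M * w 3) ^ j := by ring
  rw [h1]
  exact one_le_mul_of_one_le_of_one_le (one_le_pow₀ h.h2) (one_le_pow₀ h.h3)

end Tri

section Norm

variable {K : Type} [Field K] {w : AbsoluteValue K ℝ} {M : ℝ}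

/-- `log` of a quantity bounded from below by a power of `M` -/
theorem log_ge {z v : ℝ} (hM : 0 < M) (n : ℕ) (hz : 0 < z) (h : z ≤ M ^ n * v) :
    Real.log z - n * Real.log M ≤ Real.log v := by
  have hv : 0 < v := by
    by_contra hcon
    push Not at hcon
    have : M ^ n * v ≤ 0 := mul_nonpos_of_nonneg_of_nonpos (by positivity) hcon
    linarith
  have h1 := Real.log_le_log hz h
  rw [Real.log_mul (by positivity) hv.ne', Real.log_pow] at h1
  linarith


theorem Cst.pw (h : Cst w M) {a b : ℕ} {z : ℝ} (hab : a ≤ b) (hz : 0 ≤ z) :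
    M ^ a * z ≤ M ^ b * z :=
  mul_le_mul_of_nonneg_right (pow_le_pow_right₀ h.one_le hab) hz

theorem Cst.addp (h : Cst w M) {x y : K} {s : ℝ} (a b c : ℕ) (hs : 0 ≤ s)
    (hx : w x ≤ M ^ a * s) (hy : w y ≤ M ^ b * s) (ha : a + 1 ≤ c) (hb : b + 1 ≤ c) :
    w (x + y) ≤ M ^ c * s := by
  obtain ⟨c, rfl⟩ : ∃ d, c = d + 1 := ⟨c - 1, by omega⟩
  have := h.add (hx.trans (h.pw (by omega : a ≤ c) hs)) (hy.trans (h.pw (by omega : b ≤ c) hs))
  calc w (x + y) ≤ M * (M ^ c * s) := this
    _ = _ := by ring

theorem Cst.subp (h : Cst w M) {x y : K} {s : ℝ} (a b c : ℕ) (hs : 0 ≤ s)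
    (hx : w x ≤ M ^ a * s) (hy : w y ≤ M ^ b * s) (ha : a + 1 ≤ c) (hb : b + 1 ≤ c) :
    w (x - y) ≤ M ^ c * s := by
  rw [sub_eq_add_neg]
  exact h.addp a b c hs hx (by rwa [map_neg_eq_map]) ha hb

theorem Cst.mulp (h : Cst w M) (n : ℕ) [n.AtLeastTwo] (hn : n ≤ 1000) {z : K} {s : ℝ} (a : ℕ)
    (hz : w z ≤ M ^ a * s) : w (OfNat.ofNat n * z) ≤ M ^ (a + 1) * s := by
  calc w (OfNat.ofNat n * z) ≤ M * w z := h.mul n hn z
    _ ≤ M * (M ^ a * s) := mul_le_mul_of_nonneg_left hz h.pos.le
    _ = _ := by ring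

/-- division by two -/
theorem Cst.half (h : Cst w M) {z : K} {s : ℝ} (a : ℕ) (hz : w (2 * z) ≤ M ^ a * s) :
    w z ≤ M ^ (a + 1) * s := by
  have h1 : w z ≤ M * w 2 * w z := le_mul_of_one_le_left (w.nonneg _) h.h2
  calc w z ≤ M * w 2 * w z := h1
    _ = M * w (2 * z) := by rw [map_mul]; ring
    _ ≤ M * (M ^ a * s) := mul_le_mul_of_nonneg_left hz h.pos.le
    _ = _ := by ring

/-- cancellation of a power of `M` -/
theorem Cst.cancel (h : Cst w M) {u v : ℝ} (k : ℕ) (huv : M ^ k * u ≤ M ^ k * v) : u ≤ v :=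
  le_of_mul_le_mul_left huv (pow_pos h.pos k)

/-- **The potential in normalised coordinates, near a cusp.** -/
theorem uniN [CharZero K] (h : Cst w M) {t X : K} {Λ : ℝ} (hΛ : 0 < Λ)
    (hr0 : 0 < w (4 * t + 27)) (hr1 : w (4 * t + 27) ≤ M ^ 16 * Real.exp (-(2 * Λ)))
    (hr2 : Real.exp (-(2 * Λ)) ≤ M ^ 16 * w (4 * t + 27))
    (hr3 : M ^ 100 * w (4 * t + 27) ≤ 1) :
    (pG t t X ≠ 0 →
      4 * (Real.log (max (w X) 1) - corr Λ (ps Λ (w (2 * X + 3)))) ≤
        Real.log (max (w (pF t t X)) (w (pG t t X))) -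
          corr Λ (ps Λ (w (2 * (pF t t X / pG t t X) + 3))) + 200 * Real.log M) ∧
    (4 * (Real.log (max (w X) 1) - corr Λ (ps Λ (w (2 * X + 3)))) ≤
        Real.log (max (w (pF t t X)) (w (pG t t X))) + 200 * Real.log M) := by
  have hM2 := h.hM
  have hM0 := h.pos
  have hM1 := h.one_le
  have hμ : 0 < Real.log M := Real.log_pos (by linarith)
  have hcr0 : ∀ y : ℝ, 0 ≤ corr Λ (ps Λ y) := fun y => corr_nonneg hΛ (ps_nonneg hΛ) (ps_le hΛ)
  have hcrle : ∀ y : ℝ, corr Λ (ps Λ y) ≤ ps Λ y := fun y => corr_le_self hΛ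
  -- `H` and the maximum
  have hHmax : w (16 * pF t t X + 24 * pG t t X) ≤
      M ^ 2 * max (w (pF t t X)) (w (pG t t X)) := by
    have h0 : 0 ≤ max (w (pF t t X)) (w (pG t t X)) := (w.nonneg _).trans (le_max_left _ _)
    refine h.addp 1 1 2 h0 (h.mulp 16 (by norm_num) 0 ?_) (h.mulp 24 (by norm_num) 0 ?_)
      (by norm_num) (by norm_num)
    · rw [pow_zero, one_mul]; exact le_max_left _ _
    · rw [pow_zero, one_mul]; exact le_max_right _ _
  have hY' : pG t t X ≠ 0 → w (16 * pF t t X + 24 * pG t t X) ≤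
      M * w (pG t t X) * w (2 * (pF t t X / pG t t X) + 3) := by
    intro hG
    have e5 : 16 * pF t t X + 24 * pG t t X =
        8 * pG t t X * (2 * (pF t t X / pG t t X) + 3) := by
      field_simp
      ring
    rw [e5, map_mul]
    exact mul_le_mul_of_nonneg_right (h.mul 8 (by norm_num) _) (w.nonneg _)
  have eG := pG_Y t X
  have eK := key_Y t X
  set μ := Real.log M with hμdef
  set Y := 2 * X + 3 with hY
  set r := 4 * t + 27 with hr
  set F := pF t t X with hF
  set G := pG t t X with hG
  set H := 16 * F + 24 * G with hH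
  set y := w Y with hy
  set ε := w r with hε
  have hy0 : 0 ≤ y := w.nonneg _
  have hH0 : 0 ≤ w H := w.nonneg _
  have hlog : ∀ (k : ℕ) {z v : ℝ}, 0 < z → z ≤ M ^ k * v → Real.log z - k * μ ≤ Real.log v :=
    fun k z v hz hzv => log_ge hM0 k hz hzv
  have hε1 : ε ≤ 1 := by
    have : (1 : ℝ) ≤ M ^ 100 := one_le_pow₀ hM1
    nlinarith
  have hmx : (1 : ℝ) ≤ max (w X) 1 := le_max_right _ _
  have hlmx : 0 ≤ Real.log (max (w X) 1) := Real.log_nonneg hmx
  rcases le_or_gt 1 (M ^ 15 * y) with hA | hB
  · -- the point is almost good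
    have hy00 : 0 < y := by
      by_contra hcon
      push Not at hcon
      have : M ^ 15 * y ≤ 0 := mul_nonpos_of_nonneg_of_nonpos (by positivity) hcon
      linarith
    -- the size of `X`
    have hX1 : w X ≤ M ^ 18 * y := by
      apply h.half 17
      have e : 2 * X = Y - 3 := by rw [hY]; ring
      rw [e]
      refine h.subp 0 16 17 hy0 (by rw [pow_zero, one_mul]) ?_ (by norm_num) (by norm_num)
      have h3 : w (3 : K) ≤ M := h.ofNat 3 (by norm_num)
      calc w (3 : K) ≤ M * 1 := by rw [mul_one]; exact h3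
        _ ≤ M * (M ^ 15 * y) := by gcongr
        _ = _ := by ring
    have hL : max (w X) 1 ≤ M ^ 18 * y :=
      max_le hX1 (hA.trans (h.pw (by norm_num) hy0))
    -- powers of `y`
    have p2 : (1 : ℝ) ≤ M ^ 30 * y ^ 2 := by
      have : (1 : ℝ) ≤ (M ^ 15 * y) ^ 2 := one_le_pow₀ hA
      calc (1 : ℝ) ≤ (M ^ 15 * y) ^ 2 := this
        _ = _ := by ring
    have p3 : y ≤ M ^ 30 * y ^ 3 := by
      calc y = y * 1 := (mul_one y).symm
        _ ≤ y * (M ^ 30 * y ^ 2) := by gcongr
        _ = _ := by ring
    -- the size of `r`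
    set s : ℝ := y ^ 4 / M ^ 40 with hs
    have hs0 : 0 ≤ s := by positivity
    have hsy : M ^ 40 * s = y ^ 4 := by
      rw [hs]
      field_simp
    have r4 : ε ≤ s := by
      apply h.cancel 100
      have e : M ^ 100 * s = M ^ 60 * y ^ 4 := by rw [← hsy]; ring
      rw [e]
      refine hr3.trans ?_
      have : (1 : ℝ) ≤ (M ^ 30 * y ^ 2) ^ 2 := one_le_pow₀ p2
      calc (1 : ℝ) ≤ (M ^ 30 * y ^ 2) ^ 2 := this
        _ = _ := by ring
    have r2 : ε * y ^ 2 ≤ s := by
      apply h.cancel 100
      have e : M ^ 100 * s = M ^ 60 * y ^ 4 := by rw [← hsy]; ring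
      rw [e]
      calc M ^ 100 * (ε * y ^ 2) = (M ^ 100 * ε) * y ^ 2 := by ring
        _ ≤ 1 * y ^ 2 := by gcongr
        _ ≤ (M ^ 30 * y ^ 2) * y ^ 2 := by gcongr
        _ = M ^ 30 * y ^ 4 := by ring
        _ ≤ _ := h.pw (by norm_num) (by positivity)
    have r3 : ε * y ≤ s := by
      apply h.cancel 100
      have e : M ^ 100 * s = M ^ 60 * y ^ 4 := by rw [← hsy]; ring
      rw [e]
      calc M ^ 100 * (ε * y) = (M ^ 100 * ε) * y := by ring
        _ ≤ 1 * y := by gcongr
        _ ≤ (M ^ 15 * y) * (M ^ 30 * y ^ 3) := by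
            rw [one_mul]
            calc y ≤ M ^ 30 * y ^ 3 := p3
              _ = 1 * (M ^ 30 * y ^ 3) := (one_mul _).symm
              _ ≤ _ := by gcongr
        _ = M ^ 45 * y ^ 4 := by ring
        _ ≤ _ := h.pw (by norm_num) (by positivity)
    have r5 : ε * ε ≤ s := by
      refine le_trans ?_ r4
      have : 0 ≤ ε := hr0.le
      nlinarith
    -- `H` is large
    have hHy : y ^ 4 ≤ M * w H := by
      have hR : w (-(36 * r) + (-(2 * (r * Y ^ 2)) + 8 * (r * Y) + r * r)) ≤ M ^ 5 * s := by
        have k1 : w (-(36 * r)) ≤ M ^ 1 * s := by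
          rw [map_neg_eq_map]
          exact h.mulp 36 (by norm_num) 0 (by rw [pow_zero, one_mul]; exact r4)
        have k2 : w (-(2 * (r * Y ^ 2))) ≤ M ^ 1 * s := by
          rw [map_neg_eq_map]
          exact h.mulp 2 (by norm_num) 0 (by rw [pow_zero, one_mul, map_mul, map_pow]; exact r2)
        have k3 : w (8 * (r * Y)) ≤ M ^ 1 * s :=
          h.mulp 8 (by norm_num) 0 (by rw [pow_zero, one_mul, map_mul]; exact r3)
        have k4 : w (r * r) ≤ M ^ 0 * s := by rw [pow_zero, one_mul, map_mul]; exact r5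
        exact h.addp 1 4 5 hs0 k1 (h.addp 2 0 4 hs0 (h.addp 1 1 2 hs0 k2 k3 (by norm_num)
          (by norm_num)) k4 (by norm_num) (by norm_num)) (by norm_num) (by norm_num)
      have hd : M * w (-(36 * r) + (-(2 * (r * Y ^ 2)) + 8 * (r * Y) + r * r)) ≤ w (Y ^ 4) := by
        rw [map_pow, ← hy, ← hsy]
        calc M * w (-(36 * r) + (-(2 * (r * Y ^ 2)) + 8 * (r * Y) + r * r)) ≤ M * (M ^ 5 * s) := by
              gcongr
          _ = M ^ 6 * s := by ring
          _ ≤ _ := h.pw (by norm_num) hs0
      have h5 := h.dom hd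
      rw [map_pow, ← hy] at h5
      refine h5.trans (le_of_eq ?_)
      rw [eK]
      congr 2
      ring
    have hmax4 : y ^ 4 ≤ M ^ 3 * max (w F) (w G) := by
      calc y ^ 4 ≤ M * w H := hHy
        _ ≤ M * (M ^ 2 * max (w F) (w G)) := by gcongr
        _ = _ := by ring
    have l1 := hlog 3 (by positivity) hmax4
    rw [Real.log_pow] at l1
    push_cast at l1
    have l2 : Real.log (max (w X) 1) ≤ 18 * μ + Real.log y := by
      have := Real.log_le_log (by linarith) hL
      rw [Real.log_mul (by positivity) hy00.ne', Real.log_pow] at this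
      push_cast at this
      exact this
    have l3 := hcr0 y
    refine ⟨fun hGne => ?_, by linarith⟩
    -- the double is almost good
    have hG20 : w G ≤ M ^ 20 * y ^ 3 := by
      apply h.half 19
      rw [eG]
      have hy3 : 0 ≤ y ^ 3 := by positivity
      have k9 : w (Y - 9) ≤ M ^ 17 * y := by
        refine h.subp 0 16 17 hy0 (by rw [pow_zero, one_mul]) ?_ (by norm_num) (by norm_num)
        have h3 : w (9 : K) ≤ M := h.ofNat 9 (by norm_num)
        calc w (9 : K) ≤ M * 1 := by rw [mul_one]; exact h3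
          _ ≤ M * (M ^ 15 * y) := by gcongr
          _ = _ := by ring
      have k1 : w (Y - 1) ≤ M ^ 16 * y := by
        refine h.subp 0 15 16 hy0 (by rw [pow_zero, one_mul]) ?_ (by norm_num) (by norm_num)
        rw [map_one]
        exact hA
      refine h.addp 17 16 19 hy3 ?_ ?_ (by norm_num) (by norm_num)
      · rw [map_mul, map_pow, ← hy]
        calc y ^ 2 * w (Y - 9) ≤ y ^ 2 * (M ^ 17 * y) := by gcongr
          _ = _ := by ring
      · rw [map_mul, ← hε]
        have : ε * y ≤ y ^ 3 := by
          apply h.cancel 100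
          calc M ^ 100 * (ε * y) = (M ^ 100 * ε) * y := by ring
            _ ≤ 1 * y := by gcongr
            _ ≤ M ^ 30 * y ^ 3 := by rw [one_mul]; exact p3
            _ ≤ _ := h.pw (by norm_num) (by positivity)
        calc ε * w (Y - 1) ≤ ε * (M ^ 16 * y) := by gcongr
          _ = M ^ 16 * (ε * y) := by ring
          _ ≤ _ := by gcongr
    have hY37 : 1 ≤ M ^ 37 * w (2 * (F / G) + 3) := by
      set z := w (2 * (F / G) + 3) with hz
      have hz0 : 0 ≤ z := w.nonneg _
      have h6 : y ^ 4 ≤ y ^ 3 * (M ^ 22 * z) := by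
        calc y ^ 4 ≤ M * w H := hHy
          _ ≤ M * (M * w G * z) := by
              have := hY' hGne
              gcongr
          _ ≤ M * (M * (M ^ 20 * y ^ 3) * z) := by gcongr
          _ = _ := by ring
      have h7 : y ≤ M ^ 22 * z := by
        have e : y ^ 4 = y ^ 3 * y := by ring
        rw [e] at h6
        exact le_of_mul_le_mul_left h6 (by positivity)
      calc 1 ≤ M ^ 15 * y := hA
        _ ≤ M ^ 15 * (M ^ 22 * z) := by gcongr
        _ = _ := by ring
    have l4 : ps Λ (w (2 * (F / G) + 3)) ≤ 37 * μ := by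
      have h1 : (M ^ 37)⁻¹ ≤ w (2 * (F / G) + 3) := by
        rw [inv_le_iff_one_le_mul₀' (by positivity)]
        exact hY37
      have h2 := ps_le' hΛ (by positivity) h1
      rw [Real.log_inv, neg_neg, Real.log_pow] at h2
      push_cast at h2
      exact h2.trans (max_le (by positivity) le_rfl)
    have l5 := hcrle (w (2 * (F / G) + 3))
    linarith
  · -- the point is near the node
    have hε0 : 0 < ε := hr0
    have y15 : M ^ 15 * y ≤ 1 := hB.le
    have hy1 : y ≤ 1 := by
      have : y ≤ M ^ 15 * y := le_mul_of_one_le_left hy0 (one_le_pow₀ hM1)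
      linarith
    -- the size of `X`
    have hX1 : w X ≤ M ^ 3 * 1 := by
      apply h.half 2
      have e : 2 * X = Y - 3 := by rw [hY]; ring
      rw [e]
      refine h.subp 0 1 2 zero_le_one (by rw [pow_zero, one_mul]; exact hy1) ?_ (by norm_num)
        (by norm_num)
      rw [pow_one, mul_one]
      exact h.ofNat 3 (by norm_num)
    have hL : max (w X) 1 ≤ M ^ 3 := by
      refine max_le (by rwa [mul_one] at hX1) (one_le_pow₀ hM1)
    have l2 : Real.log (max (w X) 1) ≤ 3 * μ := by
      have := Real.log_le_log (by linarith) hL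
      rw [Real.log_pow] at this
      push_cast at this
      exact this
    -- constants
    have w9 : 1 ≤ M ^ 2 * w (9 : K) := by
      have := h.low 0 2
      norm_num at this
      exact this
    have w36 : 1 ≤ M ^ 4 * w (36 : K) := by
      have := h.low 2 2
      norm_num at this
      exact this
    have w2 : w (2 : K) ≤ M := h.ofNat 2 (by norm_num)
    -- `Y - 9` and `Y - 1`
    have k9 : w (Y - 9) ≤ M ^ 2 * 1 := by
      refine h.subp 0 1 2 zero_le_one (by rw [pow_zero, one_mul]; exact hy1) ?_ (by norm_num)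
        (by norm_num)
      rw [pow_one, mul_one]
      exact h.ofNat 9 (by norm_num)
    have k9' : 1 ≤ M ^ 3 * w (Y - 9) := by
      have h1 : M * w Y ≤ w (-9 : K) := by
        rw [map_neg_eq_map, ← hy]
        apply h.cancel 2
        calc M ^ 2 * (M * y) = M ^ 3 * y := by ring
          _ ≤ M ^ 15 * y := h.pw (by norm_num) hy0
          _ ≤ 1 := y15
          _ ≤ _ := w9
      have h2 := h.dom h1
      rw [map_neg_eq_map] at h2
      have e : Y - 9 = -9 + Y := by ring
      calc 1 ≤ M ^ 2 * w (9 : K) := w9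
        _ ≤ M ^ 2 * (M * w (-9 + Y)) := by gcongr
        _ = M ^ 3 * w (Y - 9) := by rw [e]; ring
    have k1 : w (Y - 1) ≤ M ^ 1 * 1 := by
      refine h.subp 0 0 1 zero_le_one (by rw [pow_zero, one_mul]; exact hy1) ?_ (by norm_num)
        (by norm_num)
      rw [map_one, pow_zero, mul_one]
    -- the small terms of `H`
    have hR : M ^ 12 * w (-(2 * (r * Y ^ 2)) + 8 * (r * Y) + r * r) ≤ ε := by
      set s : ℝ := ε / M ^ 15 with hs
      have hs0 : 0 ≤ s := by positivity
      have hsy : M ^ 15 * s = ε := by rw [hs]; field_simp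
      have r3 : ε * y ≤ s := by
        apply h.cancel 15
        rw [hsy]
        calc M ^ 15 * (ε * y) = ε * (M ^ 15 * y) := by ring
          _ ≤ ε * 1 := by gcongr
          _ = ε := mul_one _
      have r2 : ε * y ^ 2 ≤ s := by
        refine le_trans ?_ r3
        have : y ^ 2 ≤ y := by nlinarith
        gcongr
      have r5 : ε * ε ≤ s := by
        apply h.cancel 15
        rw [hsy]
        calc M ^ 15 * (ε * ε) = ε * (M ^ 15 * ε) := by ring
          _ ≤ ε * (M ^ 100 * ε) := by
              have := h.pw (a := 15) (b := 100) (by norm_num) hε0.le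
              gcongr
          _ ≤ ε * 1 := by gcongr
          _ = ε := mul_one _
      have k2 : w (-(2 * (r * Y ^ 2))) ≤ M ^ 1 * s := by
        rw [map_neg_eq_map]
        exact h.mulp 2 (by norm_num) 0 (by rw [pow_zero, one_mul, map_mul, map_pow]; exact r2)
      have k3 : w (8 * (r * Y)) ≤ M ^ 1 * s :=
        h.mulp 8 (by norm_num) 0 (by rw [pow_zero, one_mul, map_mul]; exact r3)
      have k4 : w (r * r) ≤ M ^ 0 * s := by rw [pow_zero, one_mul, map_mul]; exact r5
      have k5 := h.addp 2 0 3 hs0 (h.addp 1 1 2 hs0 k2 k3 (by norm_num) (by norm_num)) k4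
        (by norm_num) (by norm_num)
      calc M ^ 12 * w (-(2 * (r * Y ^ 2)) + 8 * (r * Y) + r * r) ≤ M ^ 12 * (M ^ 3 * s) := by
            gcongr
        _ = M ^ 15 * s := by ring
        _ = ε := hsy
    set R := -(2 * (r * Y ^ 2)) + 8 * (r * Y) + r * r with hRdef
    have eH : H = -(36 * r) + (Y ^ 4 + R) := by
      rw [eK, hRdef]
      ring
    -- `H` is at least `ε` when `Y ^ 4` is small
    have hHε : M ^ 8 * y ^ 4 ≤ ε → ε ≤ M ^ 5 * w H := by
      intro h8
      have h1 : M ^ 7 * w (Y ^ 4 + R) ≤ ε := by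
        set s : ℝ := ε / M ^ 8 with hs
        have hs0 : 0 ≤ s := by positivity
        have hsy : M ^ 8 * s = ε := by rw [hs]; field_simp
        have h2 := h.addp (x := Y ^ 4) (y := R) 0 0 1 hs0 (by
          rw [pow_zero, one_mul, map_pow, ← hy]
          apply h.cancel 8
          rw [hsy]
          exact h8) (by
          rw [pow_zero, one_mul]
          apply h.cancel 8
          rw [hsy]
          exact (h.pw (by norm_num) (w.nonneg _)).trans hR) (by norm_num) (by norm_num)
        calc M ^ 7 * w (Y ^ 4 + R) ≤ M ^ 7 * (M ^ 1 * s) := by gcongr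
          _ = M ^ 8 * s := by ring
          _ = ε := hsy
      have h36 : ε ≤ M ^ 4 * w (36 * r) := by
        rw [map_mul, ← hε]
        calc ε = 1 * ε := (one_mul _).symm
          _ ≤ (M ^ 4 * w (36 : K)) * ε := by gcongr
          _ = _ := by ring
      have h2 : M * w (Y ^ 4 + R) ≤ w (-(36 * r)) := by
        rw [map_neg_eq_map]
        apply h.cancel 4
        calc M ^ 4 * (M * w (Y ^ 4 + R)) = M ^ 5 * w (Y ^ 4 + R) := by ring
          _ ≤ M ^ 7 * w (Y ^ 4 + R) := h.pw (by norm_num) (w.nonneg _)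
          _ ≤ ε := h1
          _ ≤ _ := h36
      have h3 := h.dom h2
      rw [map_neg_eq_map, ← eH] at h3
      calc ε ≤ M ^ 4 * w (36 * r) := h36
        _ ≤ M ^ 4 * (M * w H) := by gcongr
        _ = _ := by ring
    -- logarithms of `ε`
    have lε1 : Real.log ε ≤ 16 * μ - 2 * Λ := by
      have := Real.log_le_log hε0 hr1
      rw [Real.log_mul (by positivity) (Real.exp_pos _).ne', Real.log_exp, Real.log_pow] at this
      push_cast at this
      linarith
    have lε2 : -(2 * Λ) - 16 * μ ≤ Real.log ε := by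
      have := hlog 16 (Real.exp_pos _) hr2
      rw [Real.log_exp] at this
      push_cast at this
      linarith
    rcases le_or_gt (M ^ 20 * ε) (y ^ 2) with h1 | h2
    · -- in the interior
      have hy00 : 0 < y := by
        rcases hy0.lt_or_eq with h9 | h9
        · exact h9
        · rw [← h9] at h1
          have : 0 < M ^ 20 * ε := by positivity
          norm_num at h1
          linarith
      -- the size of `G`
      have g0 : M ^ 19 * w (r * (Y - 1)) ≤ y ^ 2 := by
        rw [map_mul, ← hε]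
        calc M ^ 19 * (ε * w (Y - 1)) ≤ M ^ 19 * (ε * (M ^ 1 * 1)) := by gcongr
          _ = M ^ 20 * ε := by ring
          _ ≤ _ := h1
      have g1 : y ^ 2 ≤ M ^ 3 * w (Y ^ 2 * (Y - 9)) := by
        rw [map_mul, map_pow, ← hy]
        calc y ^ 2 = y ^ 2 * 1 := (mul_one _).symm
          _ ≤ y ^ 2 * (M ^ 3 * w (Y - 9)) := by gcongr
          _ = _ := by ring
      have g2 : y ^ 2 ≤ M ^ 5 * w G := by
        have h3 : M * w (r * (Y - 1)) ≤ w (Y ^ 2 * (Y - 9)) := by
          apply h.cancel 3
          calc M ^ 3 * (M * w (r * (Y - 1))) = M ^ 4 * w (r * (Y - 1)) := by ring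
            _ ≤ M ^ 19 * w (r * (Y - 1)) := h.pw (by norm_num) (w.nonneg _)
            _ ≤ y ^ 2 := g0
            _ ≤ _ := g1
        have h4 := h.dom h3
        rw [← eG] at h4
        calc y ^ 2 ≤ M ^ 3 * w (Y ^ 2 * (Y - 9)) := g1
          _ ≤ M ^ 3 * (M * w (2 * G)) := by gcongr
          _ ≤ M ^ 3 * (M * (M * w G)) := by
              have := h.mul 2 (by norm_num) G
              gcongr
          _ = _ := by ring
      have g3 : w G ≤ M ^ 4 * y ^ 2 := by
        apply h.half 3
        rw [eG]
        refine h.addp 2 0 3 (by positivity) ?_ ?_ (by norm_num) (by norm_num)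
        · rw [map_mul, map_pow, ← hy]
          calc y ^ 2 * w (Y - 9) ≤ y ^ 2 * (M ^ 2 * 1) := by gcongr
            _ = _ := by ring
        · rw [pow_zero, one_mul]
          have : w (r * (Y - 1)) ≤ M ^ 19 * w (r * (Y - 1)) :=
            le_mul_of_one_le_left (w.nonneg _) (one_le_pow₀ hM1)
          linarith
      have hGne : G ≠ 0 := by
        intro h0
        rw [h0, map_zero, mul_zero] at g2
        have : 0 < y ^ 2 := by positivity
        linarith
      -- the position
      set c := -Real.log y with hc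
      have ly : Real.log y = -c := by rw [hc]; ring
      have hylarge : Real.exp (-Λ) < y := by
        have e : Real.exp (-(2 * Λ)) = Real.exp (-Λ) ^ 2 := by
          rw [← Real.exp_nat_mul]
          congr 1
          push_cast
          ring
        have h3 : Real.exp (-Λ) ^ 2 < y ^ 2 := by
          rw [← e]
          refine lt_of_le_of_lt hr2 (lt_of_lt_of_le ?_ h1)
          have : M ^ 16 < M ^ 20 := pow_lt_pow_right₀ (by linarith) (by norm_num)
          exact mul_lt_mul_of_pos_right this hε0
        exact lt_of_pow_lt_pow_left₀ 2 hy0 h3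
      have hps : ps Λ y = c := ps_mid hylarge hy1
      have hc0 : 0 ≤ c := by
        have := Real.log_nonpos hy0 hy1
        linarith
      have hcΛ : c ≤ Λ := by
        have := Real.log_lt_log (Real.exp_pos _) hylarge
        rw [Real.log_exp] at this
        linarith
      have h14 : 4 * corr Λ c = 4 * c - 2 * c ^ 2 / Λ := by
        unfold corr
        field_simp
        ring
      have h15 : 2 * c ^ 2 / Λ ≤ 2 * c := by
        rw [div_le_iff₀ hΛ]
        nlinarith
      have h16 : -(2 * c) - 5 * μ ≤ Real.log (max (w F) (w G)) := by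
        have h3 : y ^ 2 ≤ M ^ 5 * max (w F) (w G) :=
          g2.trans (mul_le_mul_of_nonneg_left (le_max_right _ _) (by positivity))
        have h4 := hlog 5 (by positivity) h3
        rw [Real.log_pow, ly] at h4
        push_cast at h4
        linarith
      -- the position of the double
      set c' := ps Λ (w (2 * (F / G) + 3)) with hc'
      have hc'0 : 0 ≤ c' := ps_nonneg hΛ
      have hc'Λ : c' ≤ Λ := ps_le hΛ
      have hYG := hY' hGne
      set z := w (2 * (F / G) + 3) with hz
      have hz0 : 0 ≤ z := w.nonneg _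
      have hHz : w H ≤ M ^ 5 * y ^ 2 * z := by
        calc w H ≤ M * w G * z := hYG
          _ ≤ M * (M ^ 4 * y ^ 2) * z := by gcongr
          _ = _ := by ring
      -- from a lower bound of `z` to an upper bound of `c'`
      have hzc : ∀ (k : ℕ) (u : ℝ), 0 < u → u ≤ M ^ k * z → c' ≤ max 0 (k * μ - Real.log u) := by
        intro k u hu huz
        have h3 : u / M ^ k ≤ z := by
          rw [div_le_iff₀ (by positivity)]
          linarith
        have h4 := ps_le' hΛ (by positivity) h3
        rw [Real.log_div hu.ne' (by positivity), Real.log_pow] at h4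
        refine h4.trans (le_of_eq ?_)
        congr 1
        ring
      have hfin : c' ≤ 2 * c + 34 * μ ∧ c' ≤ 2 * Λ - 2 * c + 34 * μ := by
        rcases le_or_gt (M ^ 8 * ε) (y ^ 4) with h3 | h3
        · -- `Y ^ 4` dominates
          have h4 : w (-(36 * r) + R) ≤ M ^ 2 * ε := by
            refine h.addp 1 0 2 hε0.le ?_ ?_ (by norm_num) (by norm_num)
            · rw [map_neg_eq_map]
              exact h.mulp 36 (by norm_num) 0 (by rw [pow_zero, one_mul])
            · rw [pow_zero, one_mul]
              have : w R ≤ M ^ 12 * w R :=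
                le_mul_of_one_le_left (w.nonneg _) (one_le_pow₀ hM1)
              linarith
          have h5 : M * w (-(36 * r) + R) ≤ w (Y ^ 4) := by
            rw [map_pow, ← hy]
            calc M * w (-(36 * r) + R) ≤ M * (M ^ 2 * ε) := by gcongr
              _ = M ^ 3 * ε := by ring
              _ ≤ M ^ 8 * ε := h.pw (by norm_num) hε0.le
              _ ≤ _ := h3
          have h6 := h.dom h5
          have e6 : Y ^ 4 + (-(36 * r) + R) = H := by rw [eH]; ring
          rw [e6, map_pow, ← hy] at h6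
          have h7 : y ^ 2 ≤ M ^ 6 * z := by
            have h8 : y ^ 2 * y ^ 2 ≤ y ^ 2 * (M ^ 6 * z) := by
              calc y ^ 2 * y ^ 2 = y ^ 4 := by ring
                _ ≤ M * w H := h6
                _ ≤ M * (M ^ 5 * y ^ 2 * z) := by gcongr
                _ = _ := by ring
            exact le_of_mul_le_mul_left h8 (by positivity)
          have h8 := hzc 6 (y ^ 2) (by positivity) h7
          rw [Real.log_pow, ly] at h8
          push_cast at h8
          have h9 : c' ≤ 2 * c + 6 * μ := h8.trans (max_le (by positivity) (by linarith))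
          have h10 : 4 * c ≤ 2 * Λ + 8 * μ := by
            have h11 := Real.log_le_log (by positivity) h3
            rw [Real.log_mul (by positivity) hε0.ne', Real.log_pow, Real.log_pow, ly] at h11
            push_cast at h11
            linarith
          exact ⟨by linarith, by linarith⟩
        · rcases le_or_gt (M ^ 8 * y ^ 4) ε with h4 | h4
          · -- `r` dominates
            have h5 := hHε h4
            have h6 : ε / y ^ 2 ≤ M ^ 10 * z := by
              rw [div_le_iff₀ (by positivity)]
              calc ε ≤ M ^ 5 * w H := h5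
                _ ≤ M ^ 5 * (M ^ 5 * y ^ 2 * z) := by gcongr
                _ = _ := by ring
            have h8 := hzc 10 (ε / y ^ 2) (by positivity) h6
            rw [Real.log_div hε0.ne' (by positivity), Real.log_pow, ly] at h8
            push_cast at h8
            have h9 : c' ≤ 2 * Λ - 2 * c + 26 * μ :=
              h8.trans (max_le (by linarith) (by linarith))
            have h10 : 2 * Λ ≤ 4 * c + 8 * μ := by
              have h11 := Real.log_le_log (by positivity) h4
              rw [Real.log_mul (by positivity) (by positivity), Real.log_pow, Real.log_pow,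
                ly] at h11
              push_cast at h11
              linarith
            exact ⟨by linarith, by linarith⟩
          · -- in the middle
            have h10 : 2 * Λ ≤ 4 * c + 24 * μ := by
              have h11 := Real.log_le_log (by positivity) h3.le
              rw [Real.log_mul (by positivity) hε0.ne', Real.log_pow, Real.log_pow, ly] at h11
              push_cast at h11
              linarith
            have h12 : 4 * c ≤ 2 * Λ + 24 * μ := by
              have h11 := Real.log_le_log hε0 h4.le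
              rw [Real.log_mul (by positivity) (by positivity), Real.log_pow, Real.log_pow,
                ly] at h11
              push_cast at h11
              linarith
            exact ⟨by linarith, by linarith⟩
      have h17 := corr_dbl' hΛ hc0 hcΛ hc'0 (by positivity : 0 ≤ 34 * μ) hfin.1 hfin.2
      rw [hps]
      refine ⟨fun _ => by linarith, by linarith⟩
    · -- at the node
      have hy2 : y ^ 2 ≤ M ^ 20 * ε := h2.le
      have h8 : M ^ 8 * y ^ 4 ≤ ε := by
        calc M ^ 8 * y ^ 4 = M ^ 8 * (y ^ 2 * y ^ 2) := by ring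
          _ ≤ M ^ 8 * ((M ^ 20 * ε) * (M ^ 20 * ε)) := by gcongr
          _ = ε * (M ^ 48 * ε) := by ring
          _ ≤ ε * (M ^ 100 * ε) := by
              have := h.pw (a := 48) (b := 100) (by norm_num) hε0.le
              gcongr
          _ ≤ ε * 1 := by gcongr
          _ = ε := mul_one _
      have hHl := hHε h8
      have hmaxε : ε ≤ M ^ 7 * max (w F) (w G) := by
        calc ε ≤ M ^ 5 * w H := hHl
          _ ≤ M ^ 5 * (M ^ 2 * max (w F) (w G)) := by gcongr
          _ = _ := by ring
      have l1 := hlog 7 hε0 hmaxε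
      push_cast at l1
      have l3 : Λ / 2 - 18 * μ ≤ corr Λ (ps Λ y) := by
        have h3 : y ≤ Real.sqrt (M ^ 20 * ε) := Real.le_sqrt_of_sq_le hy2
        have h4 := ps_ge (Λ := Λ) hy0 h3
        have h5 : Real.log (Real.sqrt (M ^ 20 * ε)) = (20 * μ + Real.log ε) / 2 := by
          rw [Real.log_sqrt (by positivity), Real.log_mul (by positivity) hε0.ne', Real.log_pow]
          push_cast
          rfl
        rw [h5] at h4
        have h6 : Λ - 18 * μ ≤ ps Λ y := by
          refine le_trans (le_min ?_ ?_) h4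
          · linarith
          · linarith
        have h7 := corr_lip hΛ (ps_nonneg hΛ) (ps_le hΛ (y := y))
        rw [corr_self hΛ] at h7
        linarith
      refine ⟨fun hGne => ?_, by linarith⟩
      have hG24 : w G ≤ M ^ 24 * ε := by
        apply h.half 23
        rw [eG]
        refine h.addp 22 1 23 hε0.le ?_ ?_ (by norm_num) (by norm_num)
        · rw [map_mul, map_pow, ← hy]
          calc y ^ 2 * w (Y - 9) ≤ (M ^ 20 * ε) * (M ^ 2 * 1) := by gcongr
            _ = _ := by ring
        · rw [map_mul, ← hε]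
          calc ε * w (Y - 1) ≤ ε * (M ^ 1 * 1) := by gcongr
            _ = _ := by ring
      have hY30 : 1 ≤ M ^ 30 * w (2 * (F / G) + 3) := by
        set z := w (2 * (F / G) + 3) with hz
        have hz0 : 0 ≤ z := w.nonneg _
        have h6 : ε * 1 ≤ ε * (M ^ 30 * z) := by
          calc ε * 1 = ε := mul_one _
            _ ≤ M ^ 5 * w H := hHl
            _ ≤ M ^ 5 * (M * w G * z) := by
                have := hY' hGne
                gcongr
            _ ≤ M ^ 5 * (M * (M ^ 24 * ε) * z) := by gcongr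
            _ = _ := by ring
        exact le_of_mul_le_mul_left h6 hε0
      have l4 : ps Λ (w (2 * (F / G) + 3)) ≤ 30 * μ := by
        have h1 : (M ^ 30)⁻¹ ≤ w (2 * (F / G) + 3) := by
          rw [inv_le_iff_one_le_mul₀' (by positivity)]
          exact hY30
        have h2 := ps_le' hΛ (by positivity) h1
        rw [Real.log_inv, neg_neg, Real.log_pow] at h2
        push_cast at h2
        exact h2.trans (max_le (by positivity) le_rfl)
      have l5 := hcrle (w (2 * (F / G) + 3))
      linarith

end Norm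

end Pool.Agent.Q237.LT
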