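import Mathlib
import Pool.Agent.H16.LA.R39.Q237.LT.Glo
import Pool.Agent.H16.LA.R39.Q237.LS.Det

/-!
# The energy inequality with all places
-/

set_option autoImplicit false
set_option linter.unusedSectionVars false

namespace Pool.Agent.Q237.LT

open NumberField IsDedekindDomain Finset Pool.Agent.H691R3 Pool.Agent.W223.AK
open Pool.Agent.TH942 Pool.Agent.TH910.LS Pool.Agent.Y733.LS Pool.Agent.Q237.LS
open WeierstrassCurve

section Real

/-- **The energy of real positions.** -/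
theorem energy_real {n : ℕ} {Λ : ℝ} (hΛ : 0 < Λ) (c : Fin n → ℝ) (h0 : ∀ i, 0 ≤ c i)
    (h1 : ∀ i, c i ≤ Λ) :
    -(n * (Λ / 3)) ≤ ∑ p ∈ (univ : Finset (Fin n)).offDiag,
        ((c p.1 ^ 2 + c p.2 ^ 2) / (2 * Λ) - max (c p.1) (c p.2) + Λ / 3) := by
  classical
  have hcard : ((univ : Finset (Fin n)).offDiag.card : ℝ) ≤ (n : ℝ) ^ 2 := by
    rw [Finset.offDiag_card, Finset.card_univ, Fintype.card_fin]
    rw [Nat.cast_sub (Nat.le_mul_self n)]
    push_cast
    have : (0 : ℝ) ≤ n := Nat.cast_nonneg _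
    nlinarith
  have key : ∀ m : ℕ, 0 < m → -(n * (Λ / 3)) - (n : ℝ) ^ 2 * (Λ / m) ≤
      ∑ p ∈ (univ : Finset (Fin n)).offDiag,
        ((c p.1 ^ 2 + c p.2 ^ 2) / (2 * Λ) - max (c p.1) (c p.2) + Λ / 3) := by
    intro m hm
    have hmr : (0 : ℝ) < m := by exact_mod_cast hm
    set u := Λ / m with hu
    have hu0 : 0 < u := div_pos hΛ hmr
    have hΛu : Λ = m * u := by rw [hu]; field_simp
    set t : Fin n → ℝ := fun i => (⌊c i / u⌋₊ : ℝ) * u with ht
    have ht1 : ∀ i, t i ≤ c i := by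
      intro i
      have h2 : (⌊c i / u⌋₊ : ℝ) ≤ c i / u := Nat.floor_le (div_nonneg (h0 i) hu0.le)
      rw [le_div_iff₀ hu0] at h2
      exact h2
    have ht2 : ∀ i, c i ≤ t i + u := by
      intro i
      have h2 := (Nat.lt_floor_add_one (c i / u)).le
      rw [div_le_iff₀ hu0] at h2
      rw [ht]
      linarith
    have ht0 : ∀ i, 0 ≤ t i := fun i => by positivity
    have hen := Pool.Agent.Y725.LS.energy (n := n) hΛ hu0 ⟨m, hΛu⟩ t
      (fun i => (ht1 i).trans (h1 i)) (fun i => ⟨⌊c i / u⌋₊, rfl⟩)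
    have h5 : 0 ≤ (n : ℝ) ^ 2 * u ^ 2 / (12 * Λ) := by positivity
    have h6 : ∑ p ∈ (univ : Finset (Fin n)).offDiag,
        ((t p.1 ^ 2 + t p.2 ^ 2) / (2 * Λ) - max (t p.1) (t p.2) + Λ / 3) ≤
        ∑ p ∈ (univ : Finset (Fin n)).offDiag,
        (((c p.1 ^ 2 + c p.2 ^ 2) / (2 * Λ) - max (c p.1) (c p.2) + Λ / 3) + u) := by
      refine Finset.sum_le_sum fun p _ => ?_
      have a1 : t p.1 ^ 2 ≤ c p.1 ^ 2 := pow_le_pow_left₀ (ht0 _) (ht1 _) 2
      have a2 : t p.2 ^ 2 ≤ c p.2 ^ 2 := pow_le_pow_left₀ (ht0 _) (ht1 _) 2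
      have a3 : (t p.1 ^ 2 + t p.2 ^ 2) / (2 * Λ) ≤ (c p.1 ^ 2 + c p.2 ^ 2) / (2 * Λ) := by
        gcongr
      have a4 : max (c p.1) (c p.2) ≤ max (t p.1) (t p.2) + u := by
        apply max_le
        · exact (ht2 _).trans (by linarith [le_max_left (t p.1) (t p.2)])
        · exact (ht2 _).trans (by linarith [le_max_right (t p.1) (t p.2)])
      linarith
    rw [Finset.sum_add_distrib (g := fun _ => u), Finset.sum_const, nsmul_eq_mul] at h6
    have h7 : ((univ : Finset (Fin n)).offDiag.card : ℝ) * u ≤ (n : ℝ) ^ 2 * u :=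
      mul_le_mul_of_nonneg_right hcard hu0.le
    linarith
  refine le_of_forall_pos_le_add fun δ hδ => ?_
  obtain ⟨m, hm⟩ := exists_nat_gt ((n : ℝ) ^ 2 * Λ / δ)
  have hm0 : 0 < m := by
    have h2 : 0 ≤ (n : ℝ) ^ 2 * Λ / δ := by positivity
    have : (0 : ℝ) < m := by linarith
    exact_mod_cast this
  have hmr : (0 : ℝ) < m := by exact_mod_cast hm0
  have h2 := key m hm0
  have h3 : (n : ℝ) ^ 2 * (Λ / m) ≤ δ := by
    rw [div_lt_iff₀ hδ] at hm
    rw [mul_div_assoc', div_le_iff₀ hmr]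
    linarith
  linarith

theorem offDiag_card' (n : ℕ) :
    ((univ : Finset (Fin n)).offDiag.card : ℝ) = (n : ℝ) ^ 2 - n := by
  rw [Finset.offDiag_card, Finset.card_univ, Fintype.card_fin]
  rw [Nat.cast_sub (Nat.le_mul_self n)]
  push_cast
  ring

/-- the sum of the kernels for real positions -/
theorem ker_real {n : ℕ} {Λ : ℝ} (hΛ : 0 ≤ Λ) (c : Fin n → ℝ) (h0 : ∀ i, 0 ≤ c i)
    (h1 : ∀ i, c i ≤ Λ) :
    -((n : ℝ) ^ 2 * (Λ / 3)) ≤ ∑ p ∈ (univ : Finset (Fin n)).offDiag, ker Λ (c p.1) (c p.2) := by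
  rcases hΛ.lt_or_eq with hΛ | hΛ
  · have h := energy_real hΛ c h0 h1
    rw [Finset.sum_add_distrib, Finset.sum_const, nsmul_eq_mul, offDiag_card'] at h
    unfold ker
    linarith
  · subst hΛ
    have h2 : ∀ i, c i = 0 := fun i => le_antisymm (h1 i) (h0 i)
    simp only [h2, ker]
    simp

end Real

section Fin

variable {K : Type} [Field K] [NumberField K]

theorem wa_finite (j : K) : {v : Pr K | 1 < fv v j}.Finite := by
  refine (ne_sets (one_ne_zero) (one_ne_zero) j).subset ?_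
  rintro v h
  exact Or.inr (Or.inr h)

/-- the finite poles of `j` -/
noncomputable def wa (j : K) : Finset (Pr K) := (wa_finite j).toFinset

theorem mem_wa {j : K} {v : Pr K} : v ∈ wa j ↔ 1 < fv v j := by
  unfold wa
  rw [Set.Finite.mem_toFinset]
  rfl

/-- the truncated counting function of the poles of `j` -/
noncomputable def fa (j : K) : ℝ := ∑ v ∈ wa j, Real.log (Nv v)

theorem fa_nonneg (j : K) : 0 ≤ fa j := Finset.sum_nonneg fun v _ => (log_Nv_pos v).le

/-- a sum over the places which are infinite or poles of `j` -/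
noncomputable def Sj (j : K) (F : AbsoluteValue K ℝ → ℝ) : ℝ :=
  ∑ w : InfinitePlace K, (w.mult : ℝ) * F w.1 + ∑ v ∈ wa j, F (fv v)

theorem Sa_eq_Sj (j : K) (F : AbsoluteValue K ℝ → ℝ) (h : ∀ v : Pr K, fv v j ≤ 1 → F (fv v) = 0) :
    Sa F = Sj j F := by
  unfold Sa Sm Sj
  congr 1
  apply finsum_eq_sum_of_support_subset
  intro v hv
  rw [Function.mem_support] at hv
  rw [Finset.mem_coe, mem_wa]
  by_contra hcon
  push Not at hcon
  exact hv (h v hcon)

theorem ht_Sj (j : K) : ht j = Sj j (fun w => Real.log (max (w j) 1)) := by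
  rw [ht_eq_Sa, Sa_eq_Sj j]
  intro v hv
  rw [max_eq_right hv, Real.log_one]

theorem Sj_sum (j : K) {ι : Type} (s : Finset ι) (F : ι → AbsoluteValue K ℝ → ℝ) :
    ∑ p ∈ s, Sj j (F p) = Sj j (fun w => ∑ p ∈ s, F p w) := by
  unfold Sj
  rw [Finset.sum_add_distrib, Finset.sum_comm]
  congr 1
  · refine Finset.sum_congr rfl fun w _ => ?_
    rw [Finset.mul_sum]
  · rw [Finset.sum_comm]

theorem wa_pos {j : K} {v : Pr K} (h : v ∈ wa j) : 0 < lA j (fv v) := by
  rw [lA_of (mem_wa.1 h).le]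
  exact div_pos (Real.log_pos (mem_wa.1 h)) two_pos

theorem wa_ne {j : K} {v : Pr K} (h : v ∈ wa j) : j ≠ 0 := by
  rintro rfl
  have := mem_wa.1 h
  rw [map_zero] at this
  linarith

theorem nat_mult {u : ℝ} (hu : 0 < u) (m : ℤ) (h : 0 ≤ (m : ℝ) * u) :
    ∃ k : ℕ, (m : ℝ) * u = k * u := by
  have h1 : (0 : ℝ) ≤ m := by
    by_contra hcon
    push Not at hcon
    nlinarith
  have h2 : 0 ≤ m := by exact_mod_cast h1
  obtain ⟨k, rfl⟩ := Int.eq_ofNat_of_zero_le h2
  exact ⟨k, by push_cast; rfl⟩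

theorem lA_mult {j : K} {v : Pr K} (hv : v ∈ wa j) :
    ∃ m : ℕ, lA j (fv v) = m * (Real.log (Nv v) / 2) := by
  have hlam := wa_pos hv
  have hlog := log_Nv_pos v
  obtain ⟨m, hm⟩ := LS.log_fv (v := v) (wa_ne hv)
  have e : lA j (fv v) = m * (Real.log (Nv v) / 2) := by
    rw [lA_of (mem_wa.1 hv).le, hm]
    ring
  rw [e] at hlam ⊢
  exact nat_mult (by positivity) m hlam.le

theorem pA_mult {a b : K} (hb : b ≠ 0) {v : Pr K} (hv : v ∈ wa (jj a b)) (x : K) :
    ∃ k : ℕ, pA a b x (fv v) = k * (Real.log (Nv v) / 2) := by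
  have hlam := wa_pos hv
  have hlog := log_Nv_pos v
  unfold pA
  rcases le_or_gt (fv v (2 * a * x + 3 * b) / fv v b) (Real.exp (-lA (jj a b) (fv v))) with h | h
  · rw [ps_small h]
    exact lA_mult hv
  · rcases le_or_gt (fv v (2 * a * x + 3 * b) / fv v b) 1 with h1 | h1
    · rw [ps_mid h h1]
      have hne : 2 * a * x + 3 * b ≠ 0 := by
        intro h0
        rw [h0, map_zero, zero_div] at h
        exact absurd h (not_lt.2 (Real.exp_pos _).le)
      have hne' : (2 * a * x + 3 * b) / b ≠ 0 := div_ne_zero hne hb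
      obtain ⟨m, hm⟩ := LS.log_fv (v := v) hne'
      rw [← map_div₀] at h1 ⊢
      have h2 := Real.log_nonpos ((fv v).nonneg _) h1
      rw [hm] at h2 ⊢
      have e : -((m : ℝ) * Real.log (Nv v)) = ((-2 * m : ℤ) : ℝ) * (Real.log (Nv v) / 2) := by
        push_cast
        ring
      rw [e]
      apply nat_mult (by positivity)
      rw [← e]
      linarith
    · rw [ps_big hlam h1.le]
      exact ⟨0, by simp⟩

/-- the energy at a finite pole of `j` -/
theorem energy_fin {a b : K} (hb : b ≠ 0) {N : ℕ} (X : Fin N → K) {v : Pr K}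
    (hv : v ∈ wa (jj a b)) (s : ℝ) :
    (N : ℝ) ^ 2 * (2 * s * Real.log (Nv v) - s ^ 2 * Real.log (max (fv v (jj a b)) 1)) / 24 -
      (N : ℝ) ^ 2 * (Real.log (max (fv v (jj a b)) 1) / 6) ≤
      ∑ p ∈ (univ : Finset (Fin N)).offDiag,
        ker (lA (jj a b) (fv v)) (pA a b (X p.1) (fv v)) (pA a b (X p.2) (fv v)) := by
  have hlam := wa_pos hv
  have hlog := log_Nv_pos v
  have hL : 0 < Real.log (fv v (jj a b)) := Real.log_pos (mem_wa.1 hv)
  have h := Pool.Agent.Y725.LS.energy (n := N) hlam (u := Real.log (Nv v) / 2) (by positivity)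
    (lA_mult hv) (fun i => pA a b (X i) (fv v)) (fun i => pA_le _ _ _ _)
      (fun i => pA_mult hb hv (X i))
  have e1 : ∑ p ∈ (univ : Finset (Fin N)).offDiag,
      (((pA a b (X p.1) (fv v)) ^ 2 + (pA a b (X p.2) (fv v)) ^ 2) / (2 * lA (jj a b) (fv v)) -
        max (pA a b (X p.1) (fv v)) (pA a b (X p.2) (fv v)) + lA (jj a b) (fv v) / 3) =
      ∑ p ∈ (univ : Finset (Fin N)).offDiag,
        ker (lA (jj a b) (fv v)) (pA a b (X p.1) (fv v)) (pA a b (X p.2) (fv v)) +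
        ((N : ℝ) ^ 2 - N) * (lA (jj a b) (fv v) / 3) := by
    rw [Finset.sum_add_distrib, Finset.sum_const, nsmul_eq_mul, offDiag_card']
    rfl
  rw [e1] at h
  have e2 : lA (jj a b) (fv v) = Real.log (fv v (jj a b)) / 2 := lA_of (mem_wa.1 hv).le
  rw [max_eq_left (mem_wa.1 hv).le]
  rw [e2] at h ⊢
  have e3 : (N : ℝ) ^ 2 * (Real.log (Nv v) / 2) ^ 2 / (12 * (Real.log (fv v (jj a b)) / 2)) =
      (N : ℝ) ^ 2 * (Real.log (Nv v) ^ 2 / Real.log (fv v (jj a b))) / 24 := by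
    field_simp
    ring
  rw [e3] at h
  have h4 : 2 * s * Real.log (Nv v) - s ^ 2 * Real.log (fv v (jj a b)) ≤
      Real.log (Nv v) ^ 2 / Real.log (fv v (jj a b)) := by
    rw [le_div_iff₀ hL]
    nlinarith [sq_nonneg (Real.log (Nv v) - s * Real.log (fv v (jj a b)))]
  have h5 : (N : ℝ) ^ 2 * (2 * s * Real.log (Nv v) - s ^ 2 * Real.log (fv v (jj a b))) / 24 ≤
      (N : ℝ) ^ 2 * (Real.log (Nv v) ^ 2 / Real.log (fv v (jj a b))) / 24 := by
    gcongr
  linarith

/-- **the inequality for a pair of points** -/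
theorem pair_all {a b : K} (ha : a ≠ 0) (hb : b ≠ 0) (hD : dl a b ≠ 0) {x x' : K} (hx : x ≠ x')
    (T : Finset (Pr K)) (hT : ∀ v ∈ T, fv v (jj a b) ≤ 1)
    (h1 : ∀ v ∈ T, sz (fv v) a b * Nv v ≤ fv v x) (h2 : ∀ v ∈ T, sz (fv v) a b * Nv v ≤ fv v x') :
    Sj (jj a b) (fun w => ker (lA (jj a b) w) (pA a b x w) (pA a b x' w)) +
      ∑ v ∈ T, Real.log (Nv v) + Sa (fun w : AbsoluteValue K ℝ => Real.log (sz w a b)) ≤
      PsiA a b x + PsiA a b x' + 100 * (Module.finrank ℚ K * c6) := by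
  classical
  have hz : x - x' ≠ 0 := sub_ne_zero.2 hx
  set KF : AbsoluteValue K ℝ → ℝ :=
    fun w => ker (lA (jj a b) w) (pA a b x w) (pA a b x' w) with hKF
  have hKF0 : ∀ v : Pr K, fv v (jj a b) ≤ 1 → KF (fv v) = 0 := by
    intro v hv
    have h5 := pA_le a b x (fv v)
    have h6 := pA_le a b x' (fv v)
    rw [lA_zero hv] at h5 h6
    have h7 := le_antisymm h5 (pA_nonneg a b x (fv v))
    have h8 := le_antisymm h6 (pA_nonneg a b x' (fv v))
    show ker _ _ _ = 0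
    rw [h7, h8, ker]
    simp
  rw [← Sa_eq_Sj (jj a b) KF hKF0]
  have hs1 : (Function.support fun v : Pr K => Lam a b x (fv v) - cA a b x (fv v)).Finite :=
    supp_sub (Fs_Lam ha hb x) (Fs_cA a b x)
  have hs2 : (Function.support fun v : Pr K => Lam a b x' (fv v) - cA a b x' (fv v)).Finite :=
    supp_sub (Fs_Lam ha hb x') (Fs_cA a b x')
  have hs3 : (Function.support fun v : Pr K => Real.log (sz (fv v) a b)).Finite := Fs_sz ha hb
  have hs4 : (Function.support fun v : Pr K => KF (fv v)).Finite := by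
    refine (wa_finite (jj a b)).subset ?_
    intro v hv
    rw [Function.mem_support] at hv
    by_contra hcon
    exact hv (hKF0 v (not_lt.1 hcon))
  have hs5 : (Function.support fun v : Pr K => if v ∈ T then Real.log (Nv v) else 0).Finite :=
    supp_ite _ _
  have hs6 : (Function.support fun v : Pr K => Real.log (fv v (x - x'))).Finite := Fs_log hz
  have hs7 : (Function.support fun v : Pr K => mu v).Finite := Fs_mu
  have e0 := Sa_log (K := K) hz
  have key : Sa (fun w : AbsoluteValue K ℝ => Real.log (w (x - x'))) ≤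
      Sm (fun w => ((((Lam a b x w.1 - cA a b x w.1) + (Lam a b x' w.1 - cA a b x' w.1)) +
            100 * Real.log 1000) - Real.log (sz w.1 a b)) - (KF w.1 + 0))
        (fun v => ((((Lam a b x (fv v) - cA a b x (fv v)) +
            (Lam a b x' (fv v) - cA a b x' (fv v))) + 100 * mu v) -
            Real.log (sz (fv v) a b)) - (KF (fv v) + if v ∈ T then Real.log (Nv v) else 0)) := by
    apply Sm_mono hs6 (supp_sub (supp_sub (supp_add (supp_add hs1 hs2) (supp_mul 100 hs7)) hs3)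
      (supp_add hs4 hs5))
    · intro w
      have h5 := (cst_inf w).pair ha hb hD hx
      have h6 : KF w.1 = _ := ker_eq
      unfold cA at *
      rw [h6]
      linarith
    · intro v
      have h5 := pair_fin ha hb hD hx v
      have h6 : KF (fv v) = _ := ker_eq
      by_cases hvT : v ∈ T
      · rw [if_pos hvT]
        have h7 := pair_large (fv_Na v) ha (Nv_pos v) hx (h1 v hvT) (h2 v hvT)
        have h8 := hKF0 v (hT v hvT)
        have h9 := mu_nonneg v
        rw [h8, cA_zero (hT v hvT), cA_zero (hT v hvT)]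
        unfold Lam
        linarith
      · rw [if_neg hvT, h6]
        unfold cA at *
        linarith
  rw [e0, Sm_sub (supp_sub (supp_add (supp_add hs1 hs2) (supp_mul 100 hs7)) hs3)
    (supp_add hs4 hs5), Sm_sub (supp_add (supp_add hs1 hs2) (supp_mul 100 hs7)) hs3,
    Sm_add (supp_add hs1 hs2) (supp_mul 100 hs7), Sm_add hs1 hs2, Sm_mul, Sm_mu,
    Sm_add hs4 hs5, Sm_ite] at key
  unfold PsiA Sa
  linarith

/-- the constant -/
noncomputable def c7 : ℝ := 2 * (400 / 3 * c6) + 100 * c6 + Real.log 6912 / 6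

theorem c7_pos : 0 < c7 := by
  unfold c7
  have := c6_pos
  have h3 : 0 ≤ Real.log 6912 := Real.log_nonneg (by norm_num)
  positivity

/-- **The energy inequality for a family of points.** -/
theorem energyA {a b : K} (ha : a ≠ 0) (hb : b ≠ 0) (hD : dl a b ≠ 0) {N : ℕ}
    (X : Fin N → K) (hX : Function.Injective X) (T : Finset (Pr K))
    (hT : ∀ v ∈ T, fv v (jj a b) ≤ 1)
    (hTX : ∀ v ∈ T, ∀ i, sz (fv v) a b * Nv v ≤ fv v (X i)) {H s : ℝ}
    (hH : ∀ i, PsiA a b (X i) ≤ H + Er K / 3) :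
    (N : ℝ) ^ 2 * (2 * s * fa (jj a b) - s ^ 2 * ht (jj a b)) / 24 +
      ((N : ℝ) ^ 2 - N) * ∑ v ∈ T, Real.log (Nv v) ≤
      N * ht (jj a b) / 6 + ((N : ℝ) ^ 2 - N) * (2 * H + Module.finrank ℚ K * c7) := by
  have hN0 : 0 ≤ (N : ℝ) ^ 2 - N := by rw [← offDiag_card']; positivity
  set n : ℝ := (Module.finrank ℚ K : ℝ) with hn
  set S := Sa (fun w : AbsoluteValue K ℝ => Real.log (sz w a b)) with hS
  set ST := ∑ v ∈ T, Real.log (Nv v) with hST
  have h1 : ∑ p ∈ (univ : Finset (Fin N)).offDiag, (Sj (jj a b) (fun w =>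
      ker (lA (jj a b) w) (pA a b (X p.1) w) (pA a b (X p.2) w)) + ST + S) ≤
      ∑ p ∈ (univ : Finset (Fin N)).offDiag, (2 * H + 2 * (Er K / 3) + 100 * (n * c6)) := by
    refine Finset.sum_le_sum fun p hp => ?_
    have hne : X p.1 ≠ X p.2 := fun h => (Finset.mem_offDiag.1 hp).2.2 (hX h)
    have h2 := pair_all ha hb hD hne T hT (fun v hv => hTX v hv p.1) (fun v hv => hTX v hv p.2)
    have h3 := hH p.1
    have h4 := hH p.2
    linarith
  rw [Finset.sum_add_distrib, Finset.sum_add_distrib, Finset.sum_const, Finset.sum_const,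
    Finset.sum_const, nsmul_eq_mul, nsmul_eq_mul, nsmul_eq_mul, offDiag_card', Sj_sum] at h1
  have h2 : (N : ℝ) ^ 2 * (2 * s * fa (jj a b) - s ^ 2 * ht (jj a b)) / 24 -
      (N : ℝ) ^ 2 * (ht (jj a b) / 6) ≤ Sj (jj a b) (fun w =>
      ∑ p ∈ (univ : Finset (Fin N)).offDiag,
        ker (lA (jj a b) w) (pA a b (X p.1) w) (pA a b (X p.2) w)) := by
    unfold Sj
    have e1 : ∑ v ∈ wa (jj a b), ((N : ℝ) ^ 2 * (2 * s * Real.log (Nv v) -
        s ^ 2 * Real.log (max (fv v (jj a b)) 1)) / 24 -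
          (N : ℝ) ^ 2 * (Real.log (max (fv v (jj a b)) 1) / 6)) ≤
        ∑ v ∈ wa (jj a b), ∑ p ∈ (univ : Finset (Fin N)).offDiag,
        ker (lA (jj a b) (fv v)) (pA a b (X p.1) (fv v)) (pA a b (X p.2) (fv v)) :=
      Finset.sum_le_sum fun v hv => energy_fin hb X hv s
    have e2 : ∑ w : InfinitePlace K, (w.mult : ℝ) *
        (-((N : ℝ) ^ 2 * (Real.log (max (w.1 (jj a b)) 1) / 6))) ≤
        ∑ w : InfinitePlace K, (w.mult : ℝ) * ∑ p ∈ (univ : Finset (Fin N)).offDiag,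
        ker (lA (jj a b) w.1) (pA a b (X p.1) w.1) (pA a b (X p.2) w.1) := by
      refine Finset.sum_le_sum fun w _ => mul_le_mul_of_nonneg_left ?_ (Nat.cast_nonneg _)
      have h5 := ker_real (lA_nonneg (jj a b) w.1) (fun i => pA a b (X i) w.1)
        (fun i => pA_nonneg _ _ _ _) (fun i => pA_le _ _ _ _)
      refine le_trans (le_of_eq ?_) h5
      unfold lA
      ring
    have e3 := ht_Sj (jj a b)
    unfold Sj at e3
    set B := ∑ v ∈ wa (jj a b), Real.log (max (fv v (jj a b)) 1) with hB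
    set A := ∑ w : InfinitePlace K, (w.mult : ℝ) * Real.log (max (w.1 (jj a b)) 1) with hA
    have e4 : ∑ w : InfinitePlace K, (w.mult : ℝ) *
        (-((N : ℝ) ^ 2 * (Real.log (max (w.1 (jj a b)) 1) / 6))) = -((N : ℝ) ^ 2 * (A / 6)) := by
      rw [hA, Finset.sum_div, Finset.mul_sum, ← Finset.sum_neg_distrib]
      refine Finset.sum_congr rfl fun w _ => by ring
    have e5 : ∑ v ∈ wa (jj a b), ((N : ℝ) ^ 2 * (2 * s * Real.log (Nv v) -
        s ^ 2 * Real.log (max (fv v (jj a b)) 1)) / 24 -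
          (N : ℝ) ^ 2 * (Real.log (max (fv v (jj a b)) 1) / 6)) =
        (N : ℝ) ^ 2 * (2 * s * fa (jj a b) - s ^ 2 * B) / 24 - (N : ℝ) ^ 2 * (B / 6) := by
      unfold fa
      rw [hB, Finset.sum_sub_distrib, ← Finset.sum_div, ← Finset.mul_sum, Finset.sum_sub_distrib,
        ← Finset.mul_sum, ← Finset.mul_sum, ← Finset.mul_sum, ← Finset.sum_div]
    rw [e4] at e2
    rw [e5] at e1
    have hA0 : 0 ≤ A := Finset.sum_nonneg fun w _ =>
      mul_nonneg (Nat.cast_nonneg _) (Real.log_nonneg (le_max_right _ _))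
    have h9 : (N : ℝ) ^ 2 * (2 * s * fa (jj a b) - s ^ 2 * ht (jj a b)) / 24 ≤
        (N : ℝ) ^ 2 * (2 * s * fa (jj a b) - s ^ 2 * B) / 24 := by
      have : s ^ 2 * B ≤ s ^ 2 * ht (jj a b) :=
        mul_le_mul_of_nonneg_left (by linarith) (by positivity)
      gcongr
    have h10 : (N : ℝ) ^ 2 * (ht (jj a b) / 6) =
        (N : ℝ) ^ 2 * (A / 6) + (N : ℝ) ^ 2 * (B / 6) := by
      rw [e3]
      ring
    linarith
  have h3 := sz_sum ha hb hD
  rw [← hn, ← hS] at h3
  have h5 : ((N : ℝ) ^ 2 - N) * ((ht (jj a b) - n * Real.log 6912) / 6) ≤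
      ((N : ℝ) ^ 2 - N) * S := mul_le_mul_of_nonneg_left (by linarith) hN0
  have e2 : n * c7 = 2 * (Er K / 3) + 100 * (n * c6) + n * Real.log 6912 / 6 := by
    unfold c7 Er
    rw [← hn]
    ring
  rw [e2]
  nlinarith

end Fin

end Pool.Agent.Q237.LT
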