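import Mathlib
import Pool.Agent.H16.LA.R39.Q237.LT.Ene
import Pool.Agent.H16.LA.R39.Q237.LS.Ext

/-!
# The lower bound for a single curve over a number field of any degree
-/

set_option autoImplicit false
set_option linter.unusedSectionVars false

namespace Pool.Agent.Q237.LT

open NumberField IsDedekindDomain Finset Pool.Agent.H691R3 Pool.Agent.W223.AK
open Pool.Agent.TH942 Pool.Agent.TH910.LS Pool.Agent.Y733.LS Pool.Agent.Q237.LS
open WeierstrassCurve
open Pool.Agent.Y725.LS (below ldeg ldeg_pos ext_apply mem_over ideal_inj)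

section Pts

variable {K : Type} [Field K] [NumberField K] [DecidableEq K]

/-- places where the curve is a ramified twist of a curve of good reduction are not poles of `j` -/
theorem gain_le {a b : K} {v : Pr K} (hv : GainAt a b v) (hD : dl a b ≠ 0) :
    fv v (jj a b) ≤ 1 := by
  obtain ⟨_, h1, h2, _⟩ := hv
  have hd0 : 0 < fv v (dl a b) := (fv v).pos hD
  rw [w_jj, h1, ← h2, div_self hd0.ne', mul_one]
  exact (fv_Na v).ofNat (w := fv v) 6912

/-- **The lower bound for one curve over a number field of any degree.** -/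
theorem mainA {a b : K} (ha : a ≠ 0) (hb : b ≠ 0) (hD : dl a b ≠ 0) {θ : ℝ} (hθ : 0 < θ)
    (hf : θ * ht (jj a b) ≤ fa (jj a b))
    (hht : Module.finrank ℚ K * c7 ≤ θ ^ 2 / 144 * ht (jj a b)) (N : ℕ)
    (hN2 : 2 ≤ N) (hN : 6 ≤ θ ^ 2 * N) (T : Finset (Pr K)) (hT : ∀ v ∈ T, GainAt a b v)
    (P : SPt a b) (hP : ∀ m : ℕ, 1 ≤ m → m ≤ 4 * N → m • P ≠ 0) :
    θ ^ 2 / 288 * ht (jj a b) + (∑ v ∈ T, Real.log (Nv v)) / 4 ≤
      4 * (N : ℝ) ^ 2 * chat P := by
  classical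
  have hmult : ∀ i : Fin N, ∃ (x y : K) (h : (sw a b).toAffine.Nonsingular x y),
      ((i : ℕ) + 1) • P = Affine.Point.some x y h := fun i =>
    exists_coord _ (hP _ (by omega) (by have := i.2; omega))
  choose x y h hxy using hmult
  have h2P : ∀ i : Fin N, (2 * ((i : ℕ) + 1)) • P = (2 : ℕ) • (Affine.Point.some (x i) (y i) (h i) :
      SPt a b) := by
    intro i
    rw [mul_smul, hxy i]
  have hy : ∀ i, y i ≠ 0 := by
    intro i h0
    apply hP (2 * ((i : ℕ) + 1)) (by omega) (by have := i.2; omega)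
    rw [h2P i]
    exact dup_zero (h i) h0
  have hG : ∀ i, pG a b (x i) ≠ 0 := fun i => (dup_some (h i) (hy i)).1
  set X : Fin N → K := fun i => pF a b (x i) / pG a b (x i) with hX
  have hXP : ∀ i, ∃ (y' : K) (h' : (sw a b).toAffine.Nonsingular (X i) y'),
      (2 * ((i : ℕ) + 1)) • P = Affine.Point.some (X i) y' h' := by
    intro i
    obtain ⟨_, y', h', e⟩ := dup_some (h i) (hy i)
    exact ⟨y', h', by rw [h2P i, e]⟩
  have hinj : Function.Injective X := by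
    intro i j hij
    by_contra hne
    obtain ⟨y1, h1, e1⟩ := hXP i
    obtain ⟨y2, h2, e2⟩ := hXP j
    have hi := i.2
    have hj := j.2
    have hne' : (i : ℕ) ≠ j := fun h9 => hne (Fin.ext h9)
    generalize X i = z1 at h1 e1 hij
    subst hij
    rcases same_x h1 h2 with h3 | h3
    · rw [← e1, ← e2] at h3
      rcases lt_or_gt_of_ne hne' with h4 | h4
      · exact smul_ne hP (k := 2 * ((j : ℕ) + 1)) (l := 2 * ((i : ℕ) + 1)) (by omega) (by omega)
          h3.symm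
      · exact smul_ne hP (k := 2 * ((i : ℕ) + 1)) (l := 2 * ((j : ℕ) + 1)) (by omega) (by omega) h3
    · rw [← e1, ← e2, ← add_smul] at h3
      exact hP _ (by omega) (by omega) h3
  have hc := chat_spec (a := a) (b := b) hD
  have hc0 := hc.2.1 P
  have hbound : ∀ i, PsiA a b (X i) ≤ 4 * (N : ℝ) ^ 2 * chat P + Er K / 3 := by
    intro i
    obtain ⟨y1, h1, e1⟩ := hXP i
    have h2 := psiA_le ha hb hD h1
    rw [← e1, q_nsmul hc.2.2.1] at h2
    have h3 : ((2 * ((i : ℕ) + 1) : ℕ) : ℝ) ^ 2 ≤ 4 * (N : ℝ) ^ 2 := by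
      have h4 : ((2 * ((i : ℕ) + 1) : ℕ) : ℝ) ≤ 2 * N := by
        have := i.2
        exact_mod_cast (by omega : 2 * ((i : ℕ) + 1) ≤ 2 * N)
      have h5 : (0 : ℝ) ≤ ((2 * ((i : ℕ) + 1) : ℕ) : ℝ) := Nat.cast_nonneg _
      calc ((2 * ((i : ℕ) + 1) : ℕ) : ℝ) ^ 2 ≤ (2 * N) ^ 2 := pow_le_pow_left₀ h5 h4 2
        _ = _ := by ring
    have h4 := mul_le_mul_of_nonneg_right h3 hc0
    linarith
  have hTX : ∀ v ∈ T, ∀ i, sz (fv v) a b * Nv v ≤ fv v (X i) := by
    intro v hv i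
    obtain ⟨g2, g3, g4, k, hk, hk'⟩ := hT v hv
    exact gain (fv_Na v) g2 ha hb g3 g4 (Nv_one_lt v) (fun z hz => fv_zpow v hz) hk hk' (hy i)
      (sw_eqn.1 (h i).1)
  have hen := energyA ha hb hD X hinj T (fun v hv => gain_le (hT v hv) hD) hTX (s := θ) hbound
  set j := jj a b with hj
  set n : ℝ := (Module.finrank ℚ K : ℝ) with hn
  set ST := ∑ v ∈ T, Real.log (Nv v) with hST
  set H := 4 * (N : ℝ) ^ 2 * chat P with hH
  have hST0 : 0 ≤ ST := Finset.sum_nonneg fun v _ => (log_Nv_pos v).le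
  have hH0 : 0 ≤ H := by positivity
  have hht0 : 0 ≤ ht j := ht_nonneg j
  have hN0 : (2 : ℝ) ≤ N := by exact_mod_cast hN2
  have hNN : (0 : ℝ) < (N : ℝ) ^ 2 := by positivity
  -- lower bound of the left side
  have g1 : (N : ℝ) ^ 2 * (θ ^ 2 * ht j) / 24 ≤
      (N : ℝ) ^ 2 * (2 * θ * fa j - θ ^ 2 * ht j) / 24 := by
    have : θ ^ 2 * ht j ≤ 2 * θ * fa j - θ ^ 2 * ht j := by
      have h5 : θ * (θ * ht j) ≤ θ * fa j := mul_le_mul_of_nonneg_left hf hθ.le
      nlinarith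
    gcongr
  have g2 : (N : ℝ) ^ 2 / 2 * ST ≤ ((N : ℝ) ^ 2 - N) * ST := by
    apply mul_le_mul_of_nonneg_right _ hST0
    nlinarith
  have g3 : N * ht j / 6 ≤ (N : ℝ) ^ 2 * (θ ^ 2 / 36 * ht j) := by
    have h6 : N * ht j * 6 ≤ N * ht j * (θ ^ 2 * N) :=
      mul_le_mul_of_nonneg_left hN (mul_nonneg (by linarith) hht0)
    nlinarith
  have g4 : ((N : ℝ) ^ 2 - N) * (2 * H + n * c7) ≤
      (N : ℝ) ^ 2 * (2 * H + θ ^ 2 / 144 * ht j) := by
    have h5 : 2 * H + n * c7 ≤ 2 * H + θ ^ 2 / 144 * ht j := by linarith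
    have h6 : 0 ≤ 2 * H + θ ^ 2 / 144 * ht j := by positivity
    have h7 : 0 ≤ (N : ℝ) ^ 2 - N := by nlinarith
    calc ((N : ℝ) ^ 2 - N) * (2 * H + n * c7)
        ≤ ((N : ℝ) ^ 2 - N) * (2 * H + θ ^ 2 / 144 * ht j) :=
          mul_le_mul_of_nonneg_left h5 h7
      _ ≤ _ := mul_le_mul_of_nonneg_right (by linarith) h6
  have g5 : (N : ℝ) ^ 2 * (θ ^ 2 * ht j / 24 + ST / 2) ≤
      (N : ℝ) ^ 2 * (θ ^ 2 / 36 * ht j + (2 * H + θ ^ 2 / 144 * ht j)) := by
    nlinarith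
  have g6 := le_of_mul_le_mul_left g5 hNN
  linarith

end Pts

section Ext

variable {K : Type} [Field K] [NumberField K] {L : Type} [Field L] [NumberField L] [Algebra K L]

theorem mem_wa_ext (w : Pr L) (j : K) :
    w ∈ wa (algebraMap K L j) ↔ w.under (𝓞 K) ∈ wa j := by
  rw [mem_wa, mem_wa, fv_ext_lt]

theorem fa_le_ht (j : K) : fa j ≤ ht j := by
  refine le_trans ?_ (sum_max_le j (wa j))
  unfold fa
  refine Finset.sum_le_sum fun v hv => ?_
  have h1 := mem_wa.1 hv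
  obtain ⟨m, hm⟩ := fv_zpow (K := K) v (wa_ne hv)
  have hN := Nv_one_lt v
  have hm1 : 1 ≤ m := by
    by_contra hcon
    push Not at hcon
    have h5 : fv v j ≤ 1 := by
      rw [hm]
      exact zpow_le_one_of_nonpos₀ hN.le (by omega)
    linarith
  apply Real.log_le_log (Nv_pos v)
  refine le_trans ?_ (le_max_left _ _)
  rw [hm]
  calc Nv v = Nv v ^ (1 : ℤ) := (zpow_one _).symm
    _ ≤ _ := zpow_le_zpow_right₀ hN.le hm1

end Ext

end Pool.Agent.Q237.LT
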