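import Mathlib
import Pool.Agent.H16.LA.R39.Q237.LT.Det

/-!
# The gain at the places of additive reduction of all curves of a given invariant
-/

set_option autoImplicit false
set_option linter.unusedSectionVars false

namespace Pool.Agent.Q237.LT

open NumberField IsDedekindDomain Finset Pool.Agent.H691R3 Pool.Agent.W223.AK
open Pool.Agent.TH942 Pool.Agent.TH910.LS Pool.Agent.Y733.LS Pool.Agent.Q237.LS
open WeierstrassCurve

section Loc

variable {K : Type} [Field K] [NumberField K]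

/-- a finite place not dividing `6`, not a pole of `j`, at which the valuation of `j` is not
divisible by `3` or the valuation of `j - 1728` is not divisible by `2` -/
def AddJ (j : K) (v : Pr K) : Prop := fv v 2 = 1 ∧ fv v 3 = 1 ∧ fv v j ≤ 1 ∧
  ((∀ m : ℤ, fv v j ≠ Nv v ^ (3 * m)) ∨ (∀ m : ℤ, fv v (j - 1728) ≠ Nv v ^ (2 * m)))

theorem AddJ_facts {a b : K} (ha : a ≠ 0) (hb : b ≠ 0) (hD : dl a b ≠ 0) {v : Pr K}
    (h : AddJ (jj a b) v) : ∃ D : ℤ, sz (fv v) a b ^ 6 = Nv v ^ D ∧ ¬ (6 ∣ D) ∧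
      (3 ∣ D ∨ 2 ∣ D) ∧ fv v (dl a b) = Nv v ^ D := by
  obtain ⟨h2, h3, hj, h4⟩ := h
  have hn := fv_Na v
  have hN := Nv_one_lt v
  have hN0 := Nv_pos v
  have h6912 : fv v (6912 : K) = 1 := by
    have : (6912 : K) = 2 ^ 8 * 3 ^ 3 := by norm_num
    rw [this, map_mul, map_pow, map_pow, h2, h3]
    norm_num
  have h46656 : fv v (46656 : K) = 1 := by
    have : (46656 : K) = 2 ^ 6 * 3 ^ 6 := by norm_num
    rw [this, map_mul, map_pow, map_pow, h2, h3]
    norm_num
  have hd0 : 0 < fv v (dl a b) := (fv v).pos hD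
  have e1 : fv v a ^ 3 = fv v (jj a b) * fv v (dl a b) := by
    rw [wjj, h6912]
    field_simp
  have e2 : fv v b ^ 2 = fv v (jj a b - 1728) * fv v (dl a b) := by
    rw [wjj_sub (fv v) a b hD, h46656]
    field_simp
  have hj3 : fv v (jj a b - 1728) ≤ 1 := by
    refine (hn.sub _ _).trans (max_le hj ?_)
    exact hn.ofNat 1728
  have a1 : fv v a ^ 3 ≤ fv v (dl a b) := by rw [e1]; nlinarith
  have b1 : fv v b ^ 2 ≤ fv v (dl a b) := by rw [e2]; nlinarith
  have d1 : fv v (dl a b) ≤ max (fv v a ^ 3) (fv v b ^ 2) := by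
    unfold dl
    refine (fv_na v _ _).trans (max_le_max ?_ ?_)
    · rw [map_mul, map_pow]
      have h5 : fv v (4 : K) ≤ 1 := hn.ofNat 4
      have h6 : 0 ≤ fv v a ^ 3 := pow_nonneg ((fv v).nonneg _) _
      nlinarith
    · rw [map_mul, map_pow]
      have h5 : fv v (27 : K) ≤ 1 := hn.ofNat 27
      have h6 : 0 ≤ fv v b ^ 2 := pow_nonneg ((fv v).nonneg _) _
      nlinarith
  obtain ⟨D, hDv⟩ := fv_zpow v hD
  obtain ⟨α, hα⟩ := fv_zpow v ha
  obtain ⟨β, hβ⟩ := fv_zpow v hb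
  have hs6 : sz (fv v) a b ^ 6 = Nv v ^ D := by
    rw [sz_six, ← hDv]
    exact le_antisymm (max_le a1 b1) d1
  have hinj : ∀ m n : ℤ, Nv v ^ m = Nv v ^ n → m = n := fun m n h =>
    zpow_right_injective₀ hN0 hN.ne' h
  have p3 : fv v a ^ 3 = Nv v ^ (3 * α) := by
    rw [hα, ← zpow_natCast, ← zpow_mul]
    congr 1
    push_cast
    ring
  have p2 : fv v b ^ 2 = Nv v ^ (2 * β) := by
    rw [hβ, ← zpow_natCast, ← zpow_mul]
    congr 1
    push_cast
    ring
  have hjD : fv v (jj a b) = Nv v ^ (3 * α - D) := by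
    rw [zpow_sub₀ hN0.ne', ← p3, ← hDv, e1]
    field_simp
  have hjD' : fv v (jj a b - 1728) = Nv v ^ (2 * β - D) := by
    rw [zpow_sub₀ hN0.ne', ← p2, ← hDv, e2]
    field_simp
  refine ⟨D, hs6, ?_, ?_, hDv⟩
  · rintro ⟨k, hk⟩
    rcases h4 with h5 | h5
    · apply h5 (α - 2 * k)
      rw [hjD, hk]
      congr 1
      ring
    · apply h5 (β - 3 * k)
      rw [hjD', hk]
      congr 1
      ring
  · rcases max_choice (fv v a ^ 3) (fv v b ^ 2) with h5 | h5
    · left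
      have h6 : fv v a ^ 3 = fv v (dl a b) := le_antisymm a1 (by rwa [h5] at d1)
      rw [p3, hDv] at h6
      exact ⟨α, (hinj _ _ h6).symm⟩
    · right
      have h6 : fv v b ^ 2 = fv v (dl a b) := le_antisymm b1 (by rwa [h5] at d1)
      rw [p2, hDv] at h6
      exact ⟨β, (hinj _ _ h6).symm⟩

/-- the dichotomy for the size of a coordinate -/
theorem dich {a b : K} (ha : a ≠ 0) (hb : b ≠ 0) (hD : dl a b ≠ 0) {v : Pr K}
    (h : AddJ (jj a b) v) {x : K} (hx : x ≠ 0) :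
    Real.log (fv v x) ≤ Real.log (sz (fv v) a b) - Real.log (Nv v) / 3 ∨
    Real.log (sz (fv v) a b) + Real.log (Nv v) / 3 ≤ Real.log (fv v x) := by
  obtain ⟨D, h1, h2, h3, _⟩ := AddJ_facts ha hb hD h
  obtain ⟨k, hk⟩ := fv_zpow v hx
  have hlog := log_Nv_pos v
  have e1 : 6 * Real.log (sz (fv v) a b) = D * Real.log (Nv v) := by
    have := congrArg Real.log h1
    rw [Real.log_pow, Real.log_zpow] at this
    push_cast at this
    exact this
  have e2 : Real.log (fv v x) = k * Real.log (Nv v) := by rw [hk, Real.log_zpow]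
  have hcase : 6 * k - D ≤ -2 ∨ 2 ≤ 6 * k - D := by omega
  rcases hcase with hc | hc
  · left
    have hc' : (6 * (k : ℝ) - D) ≤ -2 := by exact_mod_cast hc
    nlinarith
  · right
    have hc' : 2 ≤ (6 * (k : ℝ) - D) := by exact_mod_cast hc
    nlinarith

open Classical in
/-- the gain for a pair -/
noncomputable def gn (a b x x' : K) (v : Pr K) : ℝ :=
  if (sz (fv v) a b < fv v x ↔ sz (fv v) a b < fv v x') then Real.log (Nv v) / 3 else 0

theorem pair_add {a b : K} (ha : a ≠ 0) (hb : b ≠ 0) (hD : dl a b ≠ 0) {v : Pr K}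
    (h : AddJ (jj a b) v) {x x' : K} (hx : x ≠ x') :
    Real.log (fv v (x - x')) ≤ Lam a b x (fv v) + Lam a b x' (fv v) -
      Real.log (sz (fv v) a b) - gn a b x x' v := by
  have hn := fv_Na v
  have hlog := log_Nv_pos v
  have hs0 : 0 < sz (fv v) a b := sz_pos ha
  set s := sz (fv v) a b with hs
  have hd : 0 < fv v (x - x') := (fv v).pos (sub_ne_zero.2 hx)
  have hgen := pair_gen (w := fv v) (b := b) (C := 1) le_rfl ha hx (by
    rw [one_mul]
    exact hn.sub x x')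
  rw [Real.log_one, add_zero] at hgen
  have hl1 : Real.log s ≤ Lam a b x (fv v) := Real.log_le_log hs0 (le_max_right _ _)
  have hl2 : Real.log s ≤ Lam a b x' (fv v) := Real.log_le_log hs0 (le_max_right _ _)
  set q := Real.exp (Real.log (Nv v) / 3) with hq
  have hq0 : 0 < q := Real.exp_pos _
  have hlq : Real.log q = Real.log (Nv v) / 3 := Real.log_exp _
  have hbig : ∀ z : K, s < fv v z → s * q ≤ fv v z := by
    intro z hz
    have hz0 : z ≠ 0 := by
      rintro rfl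
      rw [map_zero] at hz
      linarith
    have hzp : 0 < fv v z := (fv v).pos hz0
    have h5 := Real.log_lt_log hs0 hz
    rcases dich ha hb hD h hz0 with h6 | h6
    · rw [← hs] at h6
      linarith
    · rw [← hs, ← hlq, ← Real.log_mul hs0.ne' hq0.ne'] at h6
      exact (Real.log_le_log_iff (by positivity) hzp).1 h6
  have hsmall : ∀ z : K, ¬ s < fv v z → fv v z ≤ s / q := by
    intro z hz
    push Not at hz
    rcases eq_or_ne z 0 with hz0 | hz0
    · rw [hz0, map_zero]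
      positivity
    have hzp : 0 < fv v z := (fv v).pos hz0
    have h5 := Real.log_le_log hzp hz
    rcases dich ha hb hD h hz0 with h6 | h6
    · rw [← hs, ← hlq, ← Real.log_div hs0.ne' hq0.ne'] at h6
      exact (Real.log_le_log_iff hzp (by positivity)).1 h6
    · rw [← hs] at h6
      linarith
  unfold gn
  rw [← hs]
  by_cases h1 : s < fv v x
  · by_cases h2 : s < fv v x'
    · rw [if_pos (by simp [h1, h2]), ← hlq]
      have := pair_large hn ha hq0 hx (hbig x h1) (hbig x' h2)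
      unfold Lam
      exact this
    · rw [if_neg (by simp [h1, h2]), sub_zero]
      unfold Lam
      exact hgen
  · by_cases h2 : s < fv v x'
    · rw [if_neg (by simp [h1, h2]), sub_zero]
      unfold Lam
      exact hgen
    · rw [if_pos (by simp [h1, h2]), ← hlq]
      have h5 : fv v (x - x') ≤ s / q := hn.le_sub (hsmall x h1) (hsmall x' h2)
      have h6 := Real.log_le_log hd h5
      rw [Real.log_div hs0.ne' hq0.ne'] at h6
      linarith

/-- **the inequality for a pair of points** -/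
theorem pair_allU {a b : K} (ha : a ≠ 0) (hb : b ≠ 0) (hD : dl a b ≠ 0) {x x' : K} (hx : x ≠ x')
    (T : Finset (Pr K)) (hT : ∀ v ∈ T, fv v (jj a b) ≤ 1)
    (h1 : ∀ v ∈ T, sz (fv v) a b * Nv v ≤ fv v x) (h2 : ∀ v ∈ T, sz (fv v) a b * Nv v ≤ fv v x')
    (U : Finset (Pr K)) (hU : ∀ v ∈ U, AddJ (jj a b) v) (hTU : Disjoint T U) :
    Sj (jj a b) (fun w => ker (lA (jj a b) w) (pA a b x w) (pA a b x' w)) +
      (∑ v ∈ T, Real.log (Nv v) + ∑ v ∈ U, gn a b x x' v) +
        Sa (fun w : AbsoluteValue K ℝ => Real.log (sz w a b)) ≤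
      PsiA a b x + PsiA a b x' + 100 * (Module.finrank ℚ K * c6) := by
  classical
  have hz : x - x' ≠ 0 := sub_ne_zero.2 hx
  set KF : AbsoluteValue K ℝ → ℝ :=
    fun w => ker (lA (jj a b) w) (pA a b x w) (pA a b x' w) with hKF
  have hKF0 : ∀ v : Pr K, fv v (jj a b) ≤ 1 → KF (fv v) = 0 := by
    intro v hv
    have h5 := pA_le a b x (fv v)
    have h6 := pA_le a b x' (fv v)
    rw [lA_zero hv] at h5 h6
    have h7 := le_antisymm h5 (pA_nonneg a b x (fv v))
    have h8 := le_antisymm h6 (pA_nonneg a b x' (fv v))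
    show ker _ _ _ = 0
    rw [h7, h8, ker]
    simp
  rw [← Sa_eq_Sj (jj a b) KF hKF0]
  have hs1 : (Function.support fun v : Pr K => Lam a b x (fv v) - cA a b x (fv v)).Finite :=
    supp_sub (Fs_Lam ha hb x) (Fs_cA a b x)
  have hs2 : (Function.support fun v : Pr K => Lam a b x' (fv v) - cA a b x' (fv v)).Finite :=
    supp_sub (Fs_Lam ha hb x') (Fs_cA a b x')
  have hs3 : (Function.support fun v : Pr K => Real.log (sz (fv v) a b)).Finite := Fs_sz ha hb
  have hs4 : (Function.support fun v : Pr K => KF (fv v)).Finite := by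
    refine (wa_finite (jj a b)).subset ?_
    intro v hv
    rw [Function.mem_support] at hv
    by_contra hcon
    exact hv (hKF0 v (not_lt.1 hcon))
  have hs5 : (Function.support fun v : Pr K => if v ∈ T then Real.log (Nv v) else 0).Finite :=
    supp_ite _ _
  have hs8 : (Function.support fun v : Pr K => if v ∈ U then gn a b x x' v else 0).Finite :=
    supp_ite _ _
  have hs6 : (Function.support fun v : Pr K => Real.log (fv v (x - x'))).Finite := Fs_log hz
  have hs7 : (Function.support fun v : Pr K => mu v).Finite := Fs_mu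
  have e0 := Sa_log (K := K) hz
  have key : Sa (fun w : AbsoluteValue K ℝ => Real.log (w (x - x'))) ≤
      Sm (fun w => ((((Lam a b x w.1 - cA a b x w.1) + (Lam a b x' w.1 - cA a b x' w.1)) +
            100 * Real.log 1000) - Real.log (sz w.1 a b)) - (KF w.1 + (0 + 0)))
        (fun v => ((((Lam a b x (fv v) - cA a b x (fv v)) +
            (Lam a b x' (fv v) - cA a b x' (fv v))) + 100 * mu v) -
            Real.log (sz (fv v) a b)) - (KF (fv v) + ((if v ∈ T then Real.log (Nv v) else 0) +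
              if v ∈ U then gn a b x x' v else 0))) := by
    apply Sm_mono hs6 (supp_sub (supp_sub (supp_add (supp_add hs1 hs2) (supp_mul 100 hs7)) hs3)
      (supp_add hs4 (supp_add hs5 hs8)))
    · intro w
      have h5 := (cst_inf w).pair ha hb hD hx
      have h6 : KF w.1 = _ := ker_eq
      unfold cA at *
      rw [h6]
      linarith
    · intro v
      have h5 := pair_fin ha hb hD hx v
      have h6 : KF (fv v) = _ := ker_eq
      by_cases hvT : v ∈ T
      · have hvU : v ∉ U := Finset.disjoint_left.1 hTU hvT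
        rw [if_pos hvT, if_neg hvU]
        have h7 := pair_large (fv_Na v) ha (Nv_pos v) hx (h1 v hvT) (h2 v hvT)
        have h8 := hKF0 v (hT v hvT)
        have h9 := mu_nonneg v
        rw [h8, cA_zero (hT v hvT), cA_zero (hT v hvT)]
        unfold Lam
        linarith
      · by_cases hvU : v ∈ U
        · rw [if_neg hvT, if_pos hvU]
          have h7 := pair_add ha hb hD (hU v hvU) hx
          have hj1 := (hU v hvU).2.2.1
          have h8 := hKF0 v hj1
          have h9 := mu_nonneg v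
          rw [h8, cA_zero hj1, cA_zero hj1]
          linarith
        · rw [if_neg hvT, if_neg hvU, h6]
          unfold cA at *
          linarith
  rw [e0, Sm_sub (supp_sub (supp_add (supp_add hs1 hs2) (supp_mul 100 hs7)) hs3)
    (supp_add hs4 (supp_add hs5 hs8)), Sm_sub (supp_add (supp_add hs1 hs2) (supp_mul 100 hs7)) hs3,
    Sm_add (supp_add hs1 hs2) (supp_mul 100 hs7), Sm_add hs1 hs2, Sm_mul, Sm_mu,
    Sm_add hs4 (supp_add hs5 hs8), Sm_add hs5 hs8, Sm_ite, Sm_ite] at key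
  unfold PsiA Sa
  linarith

open Classical in
/-- pairs on the same side -/
theorem same_side {N : ℕ} (A : Fin N → Prop) :
    (N : ℝ) ^ 2 / 2 - N ≤ ∑ p ∈ (univ : Finset (Fin N)).offDiag,
      (if (A p.1 ↔ A p.2) then (1 : ℝ) else 0) := by
  set σ : Fin N → ℝ := fun i => if A i then 1 else -1 with hσ
  have h1 : ∀ i j, (if (A i ↔ A j) then (1 : ℝ) else 0) = (1 + σ i * σ j) / 2 := by
    intro i j
    rw [hσ]
    by_cases hi : A i <;> by_cases hj : A j <;> simp [hi, hj]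
  have h2 : ∑ i, ∑ j, (if (A i ↔ A j) then (1 : ℝ) else 0) =
      ((N : ℝ) ^ 2 + (∑ i, σ i) ^ 2) / 2 := by
    simp only [h1]
    have : ∀ i j, (1 + σ i * σ j) / 2 = 1 / 2 + 1 / 2 * (σ i * σ j) := fun i j => by ring
    simp only [this, Finset.sum_add_distrib, Finset.sum_const, Finset.card_univ, Fintype.card_fin,
      nsmul_eq_mul, ← Finset.mul_sum]
    rw [← Finset.sum_mul]
    ring
  have h5 : ∑ i, ∑ j, (if (A i ↔ A j) then (1 : ℝ) else 0) =
      ∑ p ∈ (univ : Finset (Fin N)).offDiag, (if (A p.1 ↔ A p.2) then (1 : ℝ) else 0) +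
      ∑ i : Fin N, (if (A i ↔ A i) then (1 : ℝ) else 0) := by
    rw [← Finset.sum_product', Finset.univ_product_univ, ← Finset.univ_product_univ,
      ← Finset.diag_union_offDiag, Finset.sum_union (Finset.disjoint_diag_offDiag _), add_comm,
      Finset.sum_diag]
  have h6 : ∑ i : Fin N, (if (A i ↔ A i) then (1 : ℝ) else 0) = N := by
    simp
  rw [h2, h6] at h5
  have h7 : 0 ≤ (∑ i, σ i) ^ 2 := sq_nonneg _
  linarith

/-- **The energy inequality for a family of points.** -/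
theorem energyU {a b : K} (ha : a ≠ 0) (hb : b ≠ 0) (hD : dl a b ≠ 0) {N : ℕ}
    (X : Fin N → K) (hX : Function.Injective X) (T : Finset (Pr K))
    (hT : ∀ v ∈ T, fv v (jj a b) ≤ 1)
    (hTX : ∀ v ∈ T, ∀ i, sz (fv v) a b * Nv v ≤ fv v (X i))
    (U : Finset (Pr K)) (hU : ∀ v ∈ U, AddJ (jj a b) v) (hTU : Disjoint T U) {H s : ℝ}
    (hH : ∀ i, PsiA a b (X i) ≤ H + Er K / 3) :
    (N : ℝ) ^ 2 * (2 * s * fa (jj a b) - s ^ 2 * ht (jj a b)) / 24 +
      ((N : ℝ) ^ 2 - N) * ∑ v ∈ T, Real.log (Nv v) +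
      ((N : ℝ) ^ 2 / 2 - N) * (∑ v ∈ U, Real.log (Nv v)) / 3 ≤
      N * ht (jj a b) / 6 + ((N : ℝ) ^ 2 - N) * (2 * H + Module.finrank ℚ K * c7) := by
  classical
  have hN0 : 0 ≤ (N : ℝ) ^ 2 - N := by rw [← offDiag_card']; positivity
  set n : ℝ := (Module.finrank ℚ K : ℝ) with hn
  set S := Sa (fun w : AbsoluteValue K ℝ => Real.log (sz w a b)) with hS
  set ST := ∑ v ∈ T, Real.log (Nv v) with hST
  have h1 : ∑ p ∈ (univ : Finset (Fin N)).offDiag, (Sj (jj a b) (fun w =>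
      ker (lA (jj a b) w) (pA a b (X p.1) w) (pA a b (X p.2) w)) +
        (ST + ∑ v ∈ U, gn a b (X p.1) (X p.2) v) + S) ≤
      ∑ p ∈ (univ : Finset (Fin N)).offDiag, (2 * H + 2 * (Er K / 3) + 100 * (n * c6)) := by
    refine Finset.sum_le_sum fun p hp => ?_
    have hne : X p.1 ≠ X p.2 := fun h => (Finset.mem_offDiag.1 hp).2.2 (hX h)
    have h2 := pair_allU ha hb hD hne T hT (fun v hv => hTX v hv p.1) (fun v hv => hTX v hv p.2)
      U hU hTU
    have h3 := hH p.1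
    have h4 := hH p.2
    linarith
  rw [Finset.sum_add_distrib, Finset.sum_add_distrib, Finset.sum_add_distrib, Finset.sum_const,
    Finset.sum_const, Finset.sum_const, nsmul_eq_mul, nsmul_eq_mul, nsmul_eq_mul, offDiag_card',
    Sj_sum, Finset.sum_comm (s := (univ : Finset (Fin N)).offDiag)] at h1
  have h2 : (N : ℝ) ^ 2 * (2 * s * fa (jj a b) - s ^ 2 * ht (jj a b)) / 24 -
      (N : ℝ) ^ 2 * (ht (jj a b) / 6) ≤ Sj (jj a b) (fun w =>
      ∑ p ∈ (univ : Finset (Fin N)).offDiag,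
        ker (lA (jj a b) w) (pA a b (X p.1) w) (pA a b (X p.2) w)) := by
    unfold Sj
    have e1 : ∑ v ∈ wa (jj a b), ((N : ℝ) ^ 2 * (2 * s * Real.log (Nv v) -
        s ^ 2 * Real.log (max (fv v (jj a b)) 1)) / 24 -
          (N : ℝ) ^ 2 * (Real.log (max (fv v (jj a b)) 1) / 6)) ≤
        ∑ v ∈ wa (jj a b), ∑ p ∈ (univ : Finset (Fin N)).offDiag,
        ker (lA (jj a b) (fv v)) (pA a b (X p.1) (fv v)) (pA a b (X p.2) (fv v)) :=
      Finset.sum_le_sum fun v hv => energy_fin hb X hv s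
    have e2 : ∑ w : InfinitePlace K, (w.mult : ℝ) *
        (-((N : ℝ) ^ 2 * (Real.log (max (w.1 (jj a b)) 1) / 6))) ≤
        ∑ w : InfinitePlace K, (w.mult : ℝ) * ∑ p ∈ (univ : Finset (Fin N)).offDiag,
        ker (lA (jj a b) w.1) (pA a b (X p.1) w.1) (pA a b (X p.2) w.1) := by
      refine Finset.sum_le_sum fun w _ => mul_le_mul_of_nonneg_left ?_ (Nat.cast_nonneg _)
      have h5 := ker_real (lA_nonneg (jj a b) w.1) (fun i => pA a b (X i) w.1)
        (fun i => pA_nonneg _ _ _ _) (fun i => pA_le _ _ _ _)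
      refine le_trans (le_of_eq ?_) h5
      unfold lA
      ring
    have e3 := ht_Sj (jj a b)
    unfold Sj at e3
    set B := ∑ v ∈ wa (jj a b), Real.log (max (fv v (jj a b)) 1) with hB
    set A := ∑ w : InfinitePlace K, (w.mult : ℝ) * Real.log (max (w.1 (jj a b)) 1) with hA
    have e4 : ∑ w : InfinitePlace K, (w.mult : ℝ) *
        (-((N : ℝ) ^ 2 * (Real.log (max (w.1 (jj a b)) 1) / 6))) = -((N : ℝ) ^ 2 * (A / 6)) := by
      rw [hA, Finset.sum_div, Finset.mul_sum, ← Finset.sum_neg_distrib]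
      refine Finset.sum_congr rfl fun w _ => by ring
    have e5 : ∑ v ∈ wa (jj a b), ((N : ℝ) ^ 2 * (2 * s * Real.log (Nv v) -
        s ^ 2 * Real.log (max (fv v (jj a b)) 1)) / 24 -
          (N : ℝ) ^ 2 * (Real.log (max (fv v (jj a b)) 1) / 6)) =
        (N : ℝ) ^ 2 * (2 * s * fa (jj a b) - s ^ 2 * B) / 24 - (N : ℝ) ^ 2 * (B / 6) := by
      unfold fa
      rw [hB, Finset.sum_sub_distrib, ← Finset.sum_div, ← Finset.mul_sum, Finset.sum_sub_distrib,
        ← Finset.mul_sum, ← Finset.mul_sum, ← Finset.mul_sum, ← Finset.sum_div]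
    rw [e4] at e2
    rw [e5] at e1
    have hA0 : 0 ≤ A := Finset.sum_nonneg fun w _ =>
      mul_nonneg (Nat.cast_nonneg _) (Real.log_nonneg (le_max_right _ _))
    have h9 : (N : ℝ) ^ 2 * (2 * s * fa (jj a b) - s ^ 2 * ht (jj a b)) / 24 ≤
        (N : ℝ) ^ 2 * (2 * s * fa (jj a b) - s ^ 2 * B) / 24 := by
      have : s ^ 2 * B ≤ s ^ 2 * ht (jj a b) :=
        mul_le_mul_of_nonneg_left (by linarith) (by positivity)
      gcongr
    have h10 : (N : ℝ) ^ 2 * (ht (jj a b) / 6) =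
        (N : ℝ) ^ 2 * (A / 6) + (N : ℝ) ^ 2 * (B / 6) := by
      rw [e3]
      ring
    linarith
  -- the gain at the additive places
  have hg : ((N : ℝ) ^ 2 / 2 - N) * (∑ v ∈ U, Real.log (Nv v)) / 3 ≤
      ∑ v ∈ U, ∑ p ∈ (univ : Finset (Fin N)).offDiag, gn a b (X p.1) (X p.2) v := by
    have e1 : ((N : ℝ) ^ 2 / 2 - N) * (∑ v ∈ U, Real.log (Nv v)) / 3 =
        ∑ v ∈ U, ((N : ℝ) ^ 2 / 2 - N) * (Real.log (Nv v) / 3) := by
      rw [mul_div_assoc, Finset.sum_div, Finset.mul_sum]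
    rw [e1]
    refine Finset.sum_le_sum fun v _ => ?_
    have hlog := log_Nv_pos v
    have h5 := same_side (fun i : Fin N => sz (fv v) a b < fv v (X i))
    have e2 : ∑ p ∈ (univ : Finset (Fin N)).offDiag, gn a b (X p.1) (X p.2) v =
        (∑ p ∈ (univ : Finset (Fin N)).offDiag,
          (if (sz (fv v) a b < fv v (X p.1) ↔ sz (fv v) a b < fv v (X p.2)) then (1 : ℝ)
            else 0)) * (Real.log (Nv v) / 3) := by
      rw [Finset.sum_mul]
      refine Finset.sum_congr rfl fun p _ => ?_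
      unfold gn
      rw [ite_mul, one_mul, zero_mul]
    rw [e2]
    exact mul_le_mul_of_nonneg_right h5 (by positivity)
  have h3 := sz_sum ha hb hD
  rw [← hn, ← hS] at h3
  have h5 : ((N : ℝ) ^ 2 - N) * ((ht (jj a b) - n * Real.log 6912) / 6) ≤
      ((N : ℝ) ^ 2 - N) * S := mul_le_mul_of_nonneg_left (by linarith) hN0
  have e2 : n * c7 = 2 * (Er K / 3) + 100 * (n * c6) + n * Real.log 6912 / 6 := by
    unfold c7 Er
    rw [← hn]
    ring
  rw [e2]
  nlinarith

theorem gain_add {a b : K} (ha : a ≠ 0) (hb : b ≠ 0) (hD : dl a b ≠ 0) (T U : Finset (Pr K))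
    (hT : ∀ v ∈ T, GainAt a b v) (hU : ∀ v ∈ U, AddJ (jj a b) v) : Disjoint T U := by
  rw [Finset.disjoint_left]
  intro v hv hv'
  obtain ⟨_, h1, h2, _⟩ := hT v hv
  obtain ⟨D, _, h3, _, h4⟩ := AddJ_facts ha hb hD (hU v hv')
  have hN := Nv_one_lt v
  have hN0 := Nv_pos v
  have hinj : ∀ m n : ℤ, Nv v ^ m = Nv v ^ n → m = n := fun m n h =>
    zpow_right_injective₀ hN0 hN.ne' h
  obtain ⟨α, hα⟩ := fv_zpow v ha
  obtain ⟨β, hβ⟩ := fv_zpow v hb
  have p3 : fv v a ^ 3 = Nv v ^ (3 * α) := by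
    rw [hα, ← zpow_natCast, ← zpow_mul]
    congr 1
    push_cast
    ring
  have p2 : fv v b ^ 2 = Nv v ^ (2 * β) := by
    rw [hβ, ← zpow_natCast, ← zpow_mul]
    congr 1
    push_cast
    ring
  have q1 : fv v (dl a b) = fv v b ^ 2 := h2
  rw [h4, p2] at q1
  rw [p3, p2] at h1
  have q2 := hinj _ _ q1
  have q3 := hinj _ _ h1
  apply h3
  omega

end Loc

section Pts

variable {K : Type} [Field K] [NumberField K] [DecidableEq K]

/-- **The lower bound for one curve over a number field of any degree.** -/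
theorem mainU {a b : K} (ha : a ≠ 0) (hb : b ≠ 0) (hD : dl a b ≠ 0) {θ : ℝ} (hθ : 0 < θ)
    (hθ1 : θ ≤ 1) (U : Finset (Pr K)) (hU : ∀ v ∈ U, AddJ (jj a b) v)
    (hf : θ * ht (jj a b) ≤ fa (jj a b) + ∑ v ∈ U, Real.log (Nv v))
    (hht : Module.finrank ℚ K * c7 ≤ θ ^ 2 / 144 * ht (jj a b)) (N : ℕ)
    (hN2 : 6 ≤ N) (hN : 6 ≤ θ ^ 2 * N) (T : Finset (Pr K)) (hT : ∀ v ∈ T, GainAt a b v)
    (P : SPt a b) (hP : ∀ m : ℕ, 1 ≤ m → m ≤ 4 * N → m • P ≠ 0) :
    θ ^ 2 / 288 * ht (jj a b) + (∑ v ∈ T, Real.log (Nv v)) / 4 ≤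
      4 * (N : ℝ) ^ 2 * chat P := by
  classical
  have hmult : ∀ i : Fin N, ∃ (x y : K) (h : (sw a b).toAffine.Nonsingular x y),
      ((i : ℕ) + 1) • P = Affine.Point.some x y h := fun i =>
    exists_coord _ (hP _ (by omega) (by have := i.2; omega))
  choose x y h hxy using hmult
  have h2P : ∀ i : Fin N, (2 * ((i : ℕ) + 1)) • P = (2 : ℕ) • (Affine.Point.some (x i) (y i) (h i) :
      SPt a b) := by
    intro i
    rw [mul_smul, hxy i]
  have hy : ∀ i, y i ≠ 0 := by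
    intro i h0
    apply hP (2 * ((i : ℕ) + 1)) (by omega) (by have := i.2; omega)
    rw [h2P i]
    exact dup_zero (h i) h0
  have hG : ∀ i, pG a b (x i) ≠ 0 := fun i => (dup_some (h i) (hy i)).1
  set X : Fin N → K := fun i => pF a b (x i) / pG a b (x i) with hX
  have hXP : ∀ i, ∃ (y' : K) (h' : (sw a b).toAffine.Nonsingular (X i) y'),
      (2 * ((i : ℕ) + 1)) • P = Affine.Point.some (X i) y' h' := by
    intro i
    obtain ⟨_, y', h', e⟩ := dup_some (h i) (hy i)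
    exact ⟨y', h', by rw [h2P i, e]⟩
  have hinj : Function.Injective X := by
    intro i j hij
    by_contra hne
    obtain ⟨y1, h1, e1⟩ := hXP i
    obtain ⟨y2, h2, e2⟩ := hXP j
    have hi := i.2
    have hj := j.2
    have hne' : (i : ℕ) ≠ j := fun h9 => hne (Fin.ext h9)
    generalize X i = z1 at h1 e1 hij
    subst hij
    rcases same_x h1 h2 with h3 | h3
    · rw [← e1, ← e2] at h3
      rcases lt_or_gt_of_ne hne' with h4 | h4
      · exact smul_ne hP (k := 2 * ((j : ℕ) + 1)) (l := 2 * ((i : ℕ) + 1)) (by omega) (by omega)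
          h3.symm
      · exact smul_ne hP (k := 2 * ((i : ℕ) + 1)) (l := 2 * ((j : ℕ) + 1)) (by omega) (by omega) h3
    · rw [← e1, ← e2, ← add_smul] at h3
      exact hP _ (by omega) (by omega) h3
  have hc := chat_spec (a := a) (b := b) hD
  have hc0 := hc.2.1 P
  have hbound : ∀ i, PsiA a b (X i) ≤ 4 * (N : ℝ) ^ 2 * chat P + Er K / 3 := by
    intro i
    obtain ⟨y1, h1, e1⟩ := hXP i
    have h2 := psiA_le ha hb hD h1
    rw [← e1, q_nsmul hc.2.2.1] at h2
    have h3 : ((2 * ((i : ℕ) + 1) : ℕ) : ℝ) ^ 2 ≤ 4 * (N : ℝ) ^ 2 := by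
      have h4 : ((2 * ((i : ℕ) + 1) : ℕ) : ℝ) ≤ 2 * N := by
        have := i.2
        exact_mod_cast (by omega : 2 * ((i : ℕ) + 1) ≤ 2 * N)
      have h5 : (0 : ℝ) ≤ ((2 * ((i : ℕ) + 1) : ℕ) : ℝ) := Nat.cast_nonneg _
      calc ((2 * ((i : ℕ) + 1) : ℕ) : ℝ) ^ 2 ≤ (2 * N) ^ 2 := pow_le_pow_left₀ h5 h4 2
        _ = _ := by ring
    have h4 := mul_le_mul_of_nonneg_right h3 hc0
    linarith
  have hTX : ∀ v ∈ T, ∀ i, sz (fv v) a b * Nv v ≤ fv v (X i) := by
    intro v hv i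
    obtain ⟨g2, g3, g4, k, hk, hk'⟩ := hT v hv
    exact gain (fv_Na v) g2 ha hb g3 g4 (Nv_one_lt v) (fun z hz => fv_zpow v hz) hk hk' (hy i)
      (sw_eqn.1 (h i).1)
  have hen := energyU ha hb hD X hinj T (fun v hv => gain_le (hT v hv) hD) hTX U hU
    (gain_add ha hb hD T U hT hU) (s := θ) hbound
  set j := jj a b with hj
  set n : ℝ := (Module.finrank ℚ K : ℝ) with hn
  set ST := ∑ v ∈ T, Real.log (Nv v) with hST
  set SU := ∑ v ∈ U, Real.log (Nv v) with hSU
  set H := 4 * (N : ℝ) ^ 2 * chat P with hH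
  have hST0 : 0 ≤ ST := Finset.sum_nonneg fun v _ => (log_Nv_pos v).le
  have hSU0 : 0 ≤ SU := Finset.sum_nonneg fun v _ => (log_Nv_pos v).le
  have hH0 : 0 ≤ H := by positivity
  have hht0 : 0 ≤ ht j := ht_nonneg j
  have hN0 : (6 : ℝ) ≤ N := by exact_mod_cast hN2
  have hNN : (0 : ℝ) < (N : ℝ) ^ 2 := by positivity
  -- lower bound of the left side
  have g0 : (N : ℝ) ^ 2 * (2 * θ * SU) / 24 ≤ ((N : ℝ) ^ 2 / 2 - N) * SU / 3 := by
    have h5 : (N : ℝ) ^ 2 / 3 ≤ (N : ℝ) ^ 2 / 2 - N := by nlinarith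
    have h6 : (N : ℝ) ^ 2 / 3 * SU ≤ ((N : ℝ) ^ 2 / 2 - N) * SU :=
      mul_le_mul_of_nonneg_right h5 hSU0
    have h7 : (N : ℝ) ^ 2 * SU * θ ≤ (N : ℝ) ^ 2 * SU * 1 :=
      mul_le_mul_of_nonneg_left hθ1 (by positivity)
    have h8 : 0 ≤ (N : ℝ) ^ 2 * SU := by positivity
    nlinarith
  have g1 : (N : ℝ) ^ 2 * (θ ^ 2 * ht j) / 24 ≤
      (N : ℝ) ^ 2 * (2 * θ * fa j - θ ^ 2 * ht j) / 24 + (N : ℝ) ^ 2 * (2 * θ * SU) / 24 := by
    have : θ ^ 2 * ht j ≤ (2 * θ * fa j - θ ^ 2 * ht j) + 2 * θ * SU := by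
      have h5 : θ * (θ * ht j) ≤ θ * (fa j + SU) := mul_le_mul_of_nonneg_left hf hθ.le
      nlinarith
    have h6 : (N : ℝ) ^ 2 * (θ ^ 2 * ht j) ≤
        (N : ℝ) ^ 2 * ((2 * θ * fa j - θ ^ 2 * ht j) + 2 * θ * SU) :=
      mul_le_mul_of_nonneg_left this hNN.le
    linarith
  have g2 : (N : ℝ) ^ 2 / 2 * ST ≤ ((N : ℝ) ^ 2 - N) * ST := by
    apply mul_le_mul_of_nonneg_right _ hST0
    nlinarith
  have g3 : N * ht j / 6 ≤ (N : ℝ) ^ 2 * (θ ^ 2 / 36 * ht j) := by
    have h6 : N * ht j * 6 ≤ N * ht j * (θ ^ 2 * N) :=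
      mul_le_mul_of_nonneg_left hN (mul_nonneg (by linarith) hht0)
    nlinarith
  have g4 : ((N : ℝ) ^ 2 - N) * (2 * H + n * c7) ≤
      (N : ℝ) ^ 2 * (2 * H + θ ^ 2 / 144 * ht j) := by
    have h5 : 2 * H + n * c7 ≤ 2 * H + θ ^ 2 / 144 * ht j := by linarith
    have h6 : 0 ≤ 2 * H + θ ^ 2 / 144 * ht j := by positivity
    have h7 : 0 ≤ (N : ℝ) ^ 2 - N := by nlinarith
    calc ((N : ℝ) ^ 2 - N) * (2 * H + n * c7)
        ≤ ((N : ℝ) ^ 2 - N) * (2 * H + θ ^ 2 / 144 * ht j) :=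
          mul_le_mul_of_nonneg_left h5 h7
      _ ≤ _ := mul_le_mul_of_nonneg_right (by linarith) h6
  have g5 : (N : ℝ) ^ 2 * (θ ^ 2 * ht j / 24 + ST / 2) ≤
      (N : ℝ) ^ 2 * (θ ^ 2 / 36 * ht j + (2 * H + θ ^ 2 / 144 * ht j)) := by
    nlinarith
  have g6 := le_of_mul_le_mul_left g5 hNN
  linarith

end Pts

end Pool.Agent.Q237.LT
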