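import Mathlib
import Pool.Agent.H16.LA.R39.Q237.LT.Add
import Pool.Agent.H16.LA.R39.Q237.LT.Fin

/-!
# The additive places in an extension, and counting
-/

set_option autoImplicit false
set_option linter.unusedSectionVars false

namespace Pool.Agent.Q237.LT

open NumberField IsDedekindDomain Finset Pool.Agent.H691R3 Pool.Agent.W223.AK
open Pool.Agent.TH942 Pool.Agent.TH910.LS Pool.Agent.Y733.LS Pool.Agent.Y733.UD
open Pool.Agent.Q237.LS
open Pool.Agent.Y725.LS (below ldeg ldeg_pos ext_apply mem_over ideal_inj)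
open Pool.Agent.W222.UABC (cS_empty)

section Wu

variable {K : Type} [Field K] [NumberField K]

theorem AddJ_finite {j : K} (h0 : j ≠ 0) (h1 : j ≠ 1728) : {v : Pr K | AddJ j v}.Finite := by
  have h2 : j - 1728 ≠ 0 := sub_ne_zero.2 h1
  refine (ne_sets h0 h2 0).subset ?_
  rintro v ⟨_, _, _, h⟩
  rw [Set.mem_ofPred_eq]
  rcases h with h | h
  · left
    have := h 0
    simpa using this
  · right
    left
    have := h 0
    simpa using this

open Classical in
/-- the additive places -/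
noncomputable def wu (j : K) : Finset (Pr K) :=
  if h : {v : Pr K | AddJ j v}.Finite then h.toFinset else ∅

theorem mem_wu {j : K} (h0 : j ≠ 0) (h1 : j ≠ 1728) {v : Pr K} : v ∈ wu j ↔ AddJ j v := by
  unfold wu
  rw [dif_pos (AddJ_finite h0 h1), Set.Finite.mem_toFinset]
  rfl

theorem of_mem_wu {j : K} {v : Pr K} (h : v ∈ wu j) : AddJ j v := by
  unfold wu at h
  split_ifs at h with h1
  · rw [Set.Finite.mem_toFinset] at h
    exact h
  · simp at h

/-- the truncated counting function of the additive places -/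
noncomputable def fu (j : K) : ℝ := ∑ v ∈ wu j, Real.log (Nv v)

theorem fu_nonneg (j : K) : 0 ≤ fu j := Finset.sum_nonneg fun v _ => (log_Nv_pos v).le

theorem wa_wu (j : K) : Disjoint (wa j) (wu j) := by
  rw [Finset.disjoint_left]
  intro v hv hv'
  have h1 := mem_wa.1 hv
  have h2 := (of_mem_wu hv').2.2.1
  linarith

end Wu

section Ext

variable {K : Type} [Field K] [NumberField K] {L : Type} [Field L] [NumberField L] [Algebra K L]

theorem below_mk (w : Pr L) : below K (FinitePlace.mk w) = FinitePlace.mk (w.under (𝓞 K)) := by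
  unfold Pool.Agent.Y725.LS.below
  rw [FinitePlace.maximalIdeal_mk]

theorem mk_inj : Function.Injective (FinitePlace.mk : Pr L → FinitePlace L) := by
  intro w w' h
  have := congrArg FinitePlace.maximalIdeal h
  rwa [FinitePlace.maximalIdeal_mk, FinitePlace.maximalIdeal_mk] at this

theorem sum_ldeg' (v : Pr K) (R : Finset (Pr L)) (hR : ∀ w ∈ R, w.under (𝓞 K) = v) :
    ∑ w ∈ R, ldeg K (FinitePlace.mk w) ≤ Module.finrank K L := by
  classical
  have h := Pool.Agent.Y725.LS.sum_ldeg (L := L) (FinitePlace.mk v) (R.image FinitePlace.mk) (by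
    intro u hu
    obtain ⟨w, hw, rfl⟩ := Finset.mem_image.1 hu
    rw [below_mk, hR w hw])
  rwa [Finset.sum_image (fun a _ b _ hab => mk_inj hab)] at h

/-- the ramification index -/
noncomputable def ee (K : Type) [Field K] [NumberField K] {L : Type} [Field L] [NumberField L]
    [Algebra K L] (w : Pr L) : ℕ :=
  (w.under (𝓞 K)).asIdeal.ramificationIdx' w.asIdeal

/-- the inertia degree -/
noncomputable def ff (K : Type) [Field K] [NumberField K] {L : Type} [Field L] [NumberField L]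
    [Algebra K L] (w : Pr L) : ℕ :=
  (w.under (𝓞 K)).asIdeal.inertiaDeg' w.asIdeal

theorem ldeg_eq (w : Pr L) : ldeg K (FinitePlace.mk w) = ee K w * ff K w := by
  unfold Pool.Agent.Y725.LS.ldeg ee ff
  rw [below_mk, FinitePlace.maximalIdeal_mk, FinitePlace.maximalIdeal_mk]

theorem ee_pos (w : Pr L) : 0 < ee K w := by
  have := ldeg_pos' (K := K) w
  rw [ldeg_eq] at this
  exact Nat.pos_of_mul_pos_right this

theorem ff_pos (w : Pr L) : 0 < ff K w := by
  have := ldeg_pos' (K := K) w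
  rw [ldeg_eq] at this
  exact Nat.pos_of_mul_pos_left this

theorem Nv_ext (w : Pr L) : Nv w = Nv (w.under (𝓞 K)) ^ ff K w := by
  haveI : w.asIdeal.LiesOver (w.under (𝓞 K)).asIdeal := ⟨rfl⟩
  have h := Ideal.absNorm_eq_pow_inertiaDeg'_of_liesOver w.asIdeal (w.under (𝓞 K)).asIdeal
    (w.under (𝓞 K)).isPrime (w.under (𝓞 K)).ne_bot
  unfold Nv ff
  exact_mod_cast h

theorem AddJ_ext {w : Pr L} {j : K} (he : ee K w = 1) (h : AddJ j (w.under (𝓞 K))) :
    AddJ (algebraMap K L j) w := by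
  obtain ⟨h2, h3, h4, h5⟩ := h
  have hl : ldeg K (FinitePlace.mk w) = ff K w := by rw [ldeg_eq, he, one_mul]
  have hf := (ff_pos (K := K) w).ne'
  have hx : ∀ x : K, fv w (algebraMap K L x) = fv (w.under (𝓞 K)) x ^ ff K w := by
    intro x
    rw [fv_ext, hl]
  have e2 : (2 : L) = algebraMap K L 2 := (map_ofNat (algebraMap K L) 2).symm
  have e3 : (3 : L) = algebraMap K L 3 := (map_ofNat (algebraMap K L) 3).symm
  have e1728 : algebraMap K L j - 1728 = algebraMap K L (j - 1728) := by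
    rw [map_sub]
    congr 1
    exact (map_ofNat (algebraMap K L) 1728).symm
  have hpow : ∀ (x : K) (m : ℤ), fv w (algebraMap K L x) = Nv w ^ m →
      fv (w.under (𝓞 K)) x = Nv (w.under (𝓞 K)) ^ m := by
    intro x m h
    rw [hx, Nv_ext (K := K)] at h
    have h6 : (Nv (w.under (𝓞 K)) ^ ff K w) ^ m = (Nv (w.under (𝓞 K)) ^ m) ^ ff K w := by
      rw [← zpow_natCast, ← zpow_natCast, ← zpow_mul, ← zpow_mul, mul_comm]
    rw [h6] at h
    exact (pow_left_inj₀ ((fv _).nonneg _) (zpow_nonneg (Nv_pos _).le _) hf).1 h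
  refine ⟨?_, ?_, ?_, ?_⟩
  · rw [e2, hx, h2, one_pow]
  · rw [e3, hx, h3, one_pow]
  · rw [hx]
    exact pow_le_one₀ ((fv _).nonneg _) h4
  · rcases h5 with h5 | h5
    · left
      intro m h6
      exact h5 m (hpow _ _ h6)
    · right
      intro m h6
      rw [e1728] at h6
      exact h5 m (hpow _ _ h6)

end Ext

section Cnt

/-- the radical of the numerator -/
theorem rl_zero_le {K : Type} [Field K] [NumberField K] {j : K} (h0 : j ≠ 0) (h1 : j ≠ 1728)
    {P : Fin 3 → Idl K} (hP : IsP ∅ j P) :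
    rl (P 0) ≤ len (P 0) / 3 + 2 / 3 * fu j + Module.finrank ℚ K * Real.log 6 := by
  classical
  have hval : ∀ v, fv v j = max (fv v j) 1 * (Nv v) ^ (-(P 0 v : ℤ)) := by
    intro v
    have h1 := hP.val 0 v (by simp)
    rwa [L_zero] at h1
  -- places in the support
  have hsup : ∀ v, P 0 v ≠ 0 → fv v j = Nv v ^ (-(P 0 v : ℤ)) ∧ fv v j < 1 := by
    intro v hv
    have h2 := hval v
    have hN := Nv_one_lt v
    have h3 : (Nv v) ^ (-(P 0 v : ℤ)) < 1 := by
      apply zpow_lt_one_of_neg₀ hN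
      have : 0 < P 0 v := Nat.pos_of_ne_zero hv
      omega
    have h4 : 0 < (Nv v) ^ (-(P 0 v : ℤ)) := zpow_pos (Nv_pos v) _
    rcases le_or_gt (fv v j) 1 with h5 | h5
    · rw [max_eq_right h5, one_mul] at h2
      exact ⟨h2, by rw [h2]; exact h3⟩
    · rw [max_eq_left h5.le] at h2
      have : fv v j * (Nv v) ^ (-(P 0 v : ℤ)) < fv v j * 1 :=
        mul_lt_mul_of_pos_left h3 (by linarith)
      linarith
  set D := (P 0).support.filter fun v => fv v ((6 : ℕ) : K) ≠ 1 with hD
  have hDsum : ∑ v ∈ D, Real.log (Nv v) ≤ Module.finrank ℚ K * Real.log 6 := by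
    have := sum_dvd (K := K) (n := 6) (by norm_num) D (fun v hv => (Finset.mem_filter.1 hv).2)
    exact_mod_cast this
  set E := (P 0).support.filter fun v => fv v ((6 : ℕ) : K) = 1 ∧ ¬ (3 ∣ P 0 v) with hE
  have hEsum : ∑ v ∈ E, Real.log (Nv v) ≤ fu j := by
    unfold fu
    refine Finset.sum_le_sum_of_subset_of_nonneg ?_ fun w _ _ => (log_Nv_pos w).le
    intro v hv
    obtain ⟨hv1, hv2, hv3⟩ := Finset.mem_filter.1 hv
    rw [Finsupp.mem_support_iff] at hv1
    obtain ⟨h5, h6⟩ := hsup v hv1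
    have hv2' : fv v (6 : K) = 1 := by
      have := hv2
      push_cast at this
      exact this
    obtain ⟨h2, h3⟩ := mu_exact hv2'
    rw [mem_wu h0 h1]
    refine ⟨h2, h3, h6.le, Or.inl ?_⟩
    intro m hm
    rw [h5] at hm
    have h7 : -(P 0 v : ℤ) = 3 * m :=
      zpow_right_injective₀ (Nv_pos v) (Nv_one_lt v).ne' hm
    apply hv3
    omega
  have key : rl (P 0) ≤ len (P 0) / 3 + 2 / 3 * ∑ v ∈ E, Real.log (Nv v) +
      ∑ v ∈ D, Real.log (Nv v) := by
    rw [hE, hD, Finset.sum_filter, Finset.sum_filter]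
    unfold rl len
    rw [Finset.sum_div, Finset.mul_sum, ← Finset.sum_add_distrib, ← Finset.sum_add_distrib]
    refine Finset.sum_le_sum fun v hv => ?_
    have hlog := log_Nv_pos v
    rw [Finsupp.mem_support_iff] at hv
    have h1 : (1 : ℝ) ≤ (P 0 v : ℝ) := by exact_mod_cast Nat.one_le_iff_ne_zero.2 hv
    by_cases h6 : fv v ((6 : ℕ) : K) = 1
    · rw [if_neg (not_not.2 h6), add_zero]
      by_cases h7 : 3 ∣ P 0 v
      · rw [if_neg (by tauto)]
        have h8 : (3 : ℝ) ≤ (P 0 v : ℝ) := by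
          exact_mod_cast Nat.le_of_dvd (Nat.pos_of_ne_zero hv) h7
        nlinarith
      · rw [if_pos ⟨h6, h7⟩]
        nlinarith
    · rw [if_pos h6, if_neg (by tauto)]
      nlinarith
  have h2 : 2 / 3 * ∑ v ∈ E, Real.log (Nv v) ≤ 2 / 3 * fu j := by linarith
  linarith

/-- the invariants with few poles and additive places -/
theorem f_count {ε : ℝ} (hε : 0 < ε) : ∃ A : ℝ, 0 ≤ A ∧
    ∀ (K : Type) [Field K] [NumberField K] (ρ X : ℝ) (E : Finset K), 0 ≤ ρ →
      (∀ j ∈ E, Pt j ∧ j ≠ 1728 ∧ ht j ≤ X ∧ fa j + fu j / 2 ≤ ρ * ht j) →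
        (E.card : ℝ) ≤ Real.exp (Module.finrank ℚ K * A + (1 / 3 + 4 / 3 * ρ + ε) * X) := by
  classical
  obtain ⟨A, hA, h⟩ := class_card hε
  have l2 : 0 ≤ Real.log 2 := Real.log_nonneg (by norm_num)
  have l6 : 0 ≤ Real.log 6 := Real.log_nonneg (by norm_num)
  refine ⟨A + Real.log 2 + Real.log 6, by positivity, ?_⟩
  intro K _ _ ρ X E hρ hE
  set n := Module.finrank ℚ K with hn
  have hP : ∀ j : K, ∃ P : Fin 3 → Idl K, Pt j → IsP ∅ j P := by
    intro j
    by_cases hj : Pt j
    · obtain ⟨P, hP⟩ := exists_isP ∅ hj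
      exact ⟨P, fun _ => hP⟩
    · exact ⟨fun _ => 0, fun h => absurd h hj⟩
  choose P hP using hP
  have h1 := h K X ((1 / 3 + 4 / 3 * ρ) * X + n * (Real.log 2 + Real.log 6)) E P 0 1
    (by decide) ?_
  · refine h1.trans (le_of_eq ?_)
    congr 1
    ring
  · intro j hj
    obtain ⟨h2, h1728, h3, h4⟩ := hE j hj
    refine ⟨h2, h3, hP j h2, ?_⟩
    have h5 := rl_eq_fa (hP j h2)
    have h6 := rl_zero_le h2.1 h1728 (hP j h2)
    have h7 := len_le h2 (hP j h2) 0
    rw [cS_empty, ← hn] at h7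
    rw [← hn] at h6
    have h9 : ρ * ht j ≤ ρ * X := mul_le_mul_of_nonneg_left h3 hρ
    have h10 := fa_nonneg j
    have h11 : 0 ≤ (n : ℝ) * Real.log 2 := by positivity
    rw [h5]
    nlinarith

end Cnt

end Pool.Agent.Q237.LT
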